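import Pool.Agent.Q38.TR.CoreC

set_option autoImplicit false

/-! # Project TR (helper273), job CORE: the metric theorem (helper38) -/

namespace Pool.Agent.Q38.TR

open Polynomial MeasureTheory Q273.TR Filter

theorem DD_taylor {n : ℕ} (f : Fin n → ℤ[X]) (N : ℤ) (a : Fin n → ℤ) (z : ℝ) :
    DD 0 (Pf (fun i => taylor N (f i)) a) z = DD 0 (Pf f a) (z + N) := by
  rw [DD_Pf, DD_Pf]
  refine Finset.sum_congr rfl fun i _ => ?_
  rw [DD_zero, DD_zero, taylor_apply, Polynomial.map_comp, eval_comp]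
  simp

theorem linInd_taylor {n : ℕ} (f : Fin n → ℤ[X]) (hf : LinearIndependent ℤ f) (N : ℤ) :
    LinearIndependent ℤ fun i => taylor N (f i) := by
  have h := hf.map_injOn (taylor N : ℤ[X] →ₗ[ℤ] ℤ[X]) ((taylor_injective N).injOn)
  exact h

/-- **CORE** -/
theorem core (hK : S_KMV) (hC : S_CELL) : S_CORE := by
  intro n k r f V Bs Wt hf hrank hkn hnr h3k hW hWV hS ε hε
  obtain ⟨n', rfl⟩ : ∃ n', n = n' + 1 := ⟨n - 1, by omega⟩
  have h01 : ∀ N : ℤ, ∀ᵐ z : ℝ, z ∈ Set.Ico (0 : ℝ) 1 → {a | a ∈ Bs ∧ a ≠ 0 ∧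
      |DD 0 (Pf f a) (z + N)| ≤ (sz a : ℝ) ^ ((k : ℝ) - r - ε) * (Wt a)⁻¹}.Finite := by
    intro N
    have h := core01 hK hC (k := k) (r := r) (fun i => taylor N (f i)) V Bs Wt
      (linInd_taylor f hf N) (by omega) (by omega) (by omega) h3k hW hWV hS (min ε 1)
      (lt_min hε one_pos) (min_le_right _ _)
    filter_upwards [h] with z hz hz01
    refine (hz hz01).subset ?_
    rintro a ⟨ha1, ha2, ha3⟩
    refine ⟨ha1, ha2, ?_⟩
    rw [DD_taylor]
    refine ha3.trans (mul_le_mul_of_nonneg_right ?_ ?_)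
    · refine Real.rpow_le_rpow_of_exponent_le ?_ ?_
      · exact_mod_cast sz_pos a ha2
      · have := min_le_left ε 1
        linarith
    · have := hW a ha1
      positivity
  have h2 : ∀ N : ℤ, ∀ᵐ z : ℝ, z - N ∈ Set.Ico (0 : ℝ) 1 → {a | a ∈ Bs ∧ a ≠ 0 ∧
      |DD 0 (Pf f a) (z - N + N)| ≤ (sz a : ℝ) ^ ((k : ℝ) - r - ε) * (Wt a)⁻¹}.Finite := fun N =>
    (measurePreserving_sub_right volume (N : ℝ)).quasiMeasurePreserving.ae (h01 N)
  filter_upwards [ae_all_iff.2 h2] with z hz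
  have h3 := hz ⌊z⌋ ⟨Int.fract_nonneg z, Int.fract_lt_one z⟩
  rwa [sub_add_cancel] at h3

end Pool.Agent.Q38.TR
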