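import Mathlib
import Pool.Agent.Q106.TreeLemmas

/-! Induced trees built vertex by vertex. -/

set_option autoImplicit false

namespace Q38.TR

variable {V : Type*}

/-- `TS G n S`: the set `S` of `n` vertices can be built by adding one vertex at a time, each new
vertex having exactly one neighbour in the current set. -/
inductive TS (G : SimpleGraph V) : ℕ → Set V → Prop
  | single (v : V) : TS G 1 {v}
  | add (n : ℕ) (S : Set V) (u y : V) (h : TS G n S) (hu : u ∉ S) (hy : y ∈ S) (hadj : G.Adj u y)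
      (huniq : ∀ z ∈ S, G.Adj u z → z = y) : TS G (n + 1) (insert u S)

theorem TS.ncard {G : SimpleGraph V} {n : ℕ} {S : Set V} (h : TS G n S) :
    S.Finite ∧ S.ncard = n := by
  induction h with
  | single v => exact ⟨Set.finite_singleton v, Set.ncard_singleton v⟩
  | add n S u y h hu hy hadj huniq ih =>
    exact ⟨ih.1.insert u, by rw [Set.ncard_insert_of_notMem hu ih.1, ih.2]⟩

theorem TS.nonempty {G : SimpleGraph V} {n : ℕ} {S : Set V} (h : TS G n S) : S.Nonempty := by
  cases h with
  | single v => exact ⟨v, rfl⟩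
  | add n S u y h hu hy hadj huniq => exact ⟨u, Set.mem_insert _ _⟩

theorem TS.connected {G : SimpleGraph V} {n : ℕ} {S : Set V} (h : TS G n S) :
    (G.induce S).Connected := by
  induction h with
  | single v =>
    have : Nonempty ({v} : Set V) := ⟨⟨v, rfl⟩⟩
    refine SimpleGraph.Connected.mk ?_
    rintro ⟨a, ha⟩ ⟨b, hb⟩
    obtain rfl : a = v := ha
    obtain rfl : b = a := hb
    exact SimpleGraph.Reachable.refl _
  | add n S u y h hu hy hadj huniq ih =>
    have hne : Nonempty (insert u S : Set V) := ⟨⟨u, Set.mem_insert _ _⟩⟩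
    have key : ∀ a : (insert u S : Set V),
        (G.induce (insert u S)).Reachable a ⟨y, Set.mem_insert_of_mem _ hy⟩ := by
      rintro ⟨a, ha⟩
      rcases ha with rfl | ha
      · exact SimpleGraph.Adj.reachable (by simpa using hadj)
      · have h1 := ih.preconnected ⟨a, ha⟩ ⟨y, hy⟩
        exact h1.map (SimpleGraph.induceHomOfLE G (Set.subset_insert u S)).toHom
    exact SimpleGraph.Connected.mk fun a b => (key a).trans (key b).symm

theorem TS.parent [Nonempty V] {G : SimpleGraph V} {n : ℕ} {S : Set V} (h : TS G n S) :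
    ∃ (ht : V → ℕ) (par : V → V), ∀ a ∈ S, ∀ b ∈ S, G.Adj a b →
      (par a = b ∧ ht b < ht a) ∨ (par b = a ∧ ht a < ht b) := by
  classical
  induction h with
  | single v =>
    refine ⟨fun _ => 0, fun a => a, ?_⟩
    intro a ha b hb hab
    obtain rfl : a = v := ha
    obtain rfl : b = a := hb
    exact absurd hab (G.loopless.irrefl _)
  | add n S u y h hu hy hadj huniq ih =>
    obtain ⟨ht, par, hp⟩ := ih
    have hfin := h.ncard.1
    obtain ⟨M, hM⟩ : ∃ M, ∀ a ∈ S, ht a ≤ M := by
      obtain ⟨M, hM⟩ := (hfin.image ht).bddAbove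
      exact ⟨M, fun a ha => hM ⟨a, ha, rfl⟩⟩
    refine ⟨Function.update ht u (M + 1), Function.update par u y, ?_⟩
    have hne : ∀ a ∈ S, a ≠ u := fun a ha hau => hu (hau ▸ ha)
    intro a ha b hb hab
    rcases ha with rfl | ha <;> rcases hb with rfl | hb
    · exact absurd hab (G.loopless.irrefl _)
    · left
      rw [Function.update_self, Function.update_self, Function.update_of_ne (hne b hb)]
      exact ⟨(huniq b hb hab).symm, by have := hM b hb; omega⟩
    · right
      rw [Function.update_self, Function.update_self, Function.update_of_ne (hne a ha)]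
      exact ⟨(huniq a ha hab.symm).symm, by have := hM a ha; omega⟩
    · rw [Function.update_of_ne (hne a ha), Function.update_of_ne (hne b hb),
        Function.update_of_ne (hne a ha), Function.update_of_ne (hne b hb)]
      exact hp a ha b hb hab

theorem TS.isTree {G : SimpleGraph V} {n : ℕ} {S : Set V} (h : TS G n S) :
    (G.induce S).IsTree := by
  classical
  refine ⟨h.connected, ?_⟩
  obtain ⟨v, hv⟩ := h.nonempty
  have : Nonempty V := ⟨v⟩
  obtain ⟨ht, par, hp⟩ := h.parent
  refine Q106.TreeLemmas.isAcyclic_of_parent (G.induce S) (fun a => ht a.1)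
    (fun a => if ha : par a.1 ∈ S then ⟨par a.1, ha⟩ else a) ?_
  rintro ⟨a, ha⟩ ⟨b, hb⟩ hab
  have hab' : G.Adj a b := by simpa using hab
  rcases hp a ha b hb hab' with ⟨h1, h2⟩ | ⟨h1, h2⟩
  · left
    refine ⟨?_, h2⟩
    have h3 : par a ∈ S := h1 ▸ hb
    simp only [h3, dif_pos]
    exact Subtype.ext h1
  · right
    refine ⟨?_, h2⟩
    have h3 : par b ∈ S := h1 ▸ ha
    simp only [h3, dif_pos]
    exact Subtype.ext h1

/-- transport along an embedding of graphs -/
theorem TS.map {W : Type*} {G : SimpleGraph V} {H : SimpleGraph W} (f : V → W)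
    (hf : Function.Injective f) (hadj : ∀ a b, H.Adj (f a) (f b) ↔ G.Adj a b) {n : ℕ} {S : Set V}
    (h : TS G n S) : TS H n (f '' S) := by
  induction h with
  | single v => rw [Set.image_singleton]; exact TS.single _
  | add n S u y h hu hy hadj' huniq ih =>
    rw [Set.image_insert_eq]
    refine TS.add n _ (f u) (f y) ih ?_ ⟨y, hy, rfl⟩ ((hadj _ _).mpr hadj') ?_
    · rintro ⟨a, ha, hau⟩
      exact hu (hf hau ▸ ha)
    · rintro _ ⟨a, ha, rfl⟩ h1
      rw [huniq a ha ((hadj _ _).mp h1)]

/-- attaching a path -/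
theorem TS.attach {G : SimpleGraph V} {n : ℕ} {T : Set V} (hT : TS G n T) (f : ℕ → V) (m : ℕ)
    (hinj : ∀ i < m, ∀ j < m, f i = f j → i = j)
    (hadj : ∀ i < m, ∀ j < m, G.Adj (f i) (f j) → i = j + 1 ∨ j = i + 1)
    (hadj' : ∀ i, i + 1 < m → G.Adj (f i) (f (i + 1)))
    (hout : ∀ i < m, f i ∉ T) (y : V) (hy : y ∈ T) (h0 : 0 < m → G.Adj (f 0) y)
    (hT1 : ∀ i < m, ∀ z ∈ T, G.Adj (f i) z → i = 0 ∧ z = y) :
    TS G (n + m) (T ∪ {v | ∃ i < m, f i = v}) := by
  induction m with
  | zero => simpa using hT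
  | succ m ih =>
    have h1 := ih (fun i hi j hj => hinj i (by omega) j (by omega))
      (fun i hi j hj => hadj i (by omega) j (by omega)) (fun i hi => hadj' i (by omega))
      (fun i hi => hout i (by omega)) (fun h => h0 (by omega))
      (fun i hi => hT1 i (by omega))
    have hset : T ∪ {v | ∃ i < m + 1, f i = v} = insert (f m) (T ∪ {v | ∃ i < m, f i = v}) := by
      ext v
      simp only [Set.mem_union, Set.mem_ofPred_eq, Set.mem_insert_iff]
      constructor
      · rintro (h | ⟨i, hi, rfl⟩)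
        · exact Or.inr (Or.inl h)
        · rcases Nat.lt_succ_iff_lt_or_eq.mp hi with h2 | rfl
          · exact Or.inr (Or.inr ⟨i, h2, rfl⟩)
          · exact Or.inl rfl
      · rintro (rfl | h | ⟨i, hi, rfl⟩)
        · exact Or.inr ⟨m, by omega, rfl⟩
        · exact Or.inl h
        · exact Or.inr ⟨i, by omega, rfl⟩
    rw [hset, show n + (m + 1) = n + m + 1 by omega]
    have hnot : f m ∉ T ∪ {v | ∃ i < m, f i = v} := by
      rintro (h | ⟨i, hi, h⟩)
      · exact hout m (by omega) h
      · have := hinj i (by omega) m (by omega) h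
        omega
    rcases Nat.eq_zero_or_pos m with hm | hm
    · subst hm
      refine TS.add _ _ (f 0) y h1 hnot (Or.inl hy) (h0 (by omega)) ?_
      rintro z (hz | ⟨i, hi, -⟩) hz2
      · exact (hT1 0 (by omega) z hz hz2).2
      · omega
    · refine TS.add _ _ (f m) (f (m - 1)) h1 hnot (Or.inr ⟨m - 1, by omega, rfl⟩) ?_ ?_
      · have := hadj' (m - 1) (by omega)
        rw [show m - 1 + 1 = m by omega] at this
        exact this.symm
      · rintro z (hz | ⟨i, hi, rfl⟩) hz2
        · have := (hT1 m (by omega) z hz hz2).1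
          omega
        · rcases hadj m (by omega) i (by omega) hz2 with h3 | h3
          · congr 1; omega
          · omega

/-- induced path on `p 0, …, p (n-1)` -/
def IP (G : SimpleGraph V) (p : ℕ → V) (n : ℕ) : Prop :=
  (∀ i < n, ∀ j < n, p i = p j → i = j) ∧
    (∀ i < n, ∀ j < n, (G.Adj (p i) (p j) ↔ (i = j + 1 ∨ j = i + 1)))

theorem IP.ts {G : SimpleGraph V} {p : ℕ → V} {n : ℕ} (h : IP G p n) (hn : 0 < n) :
    TS G n {v | ∃ i < n, p i = v} := by
  obtain ⟨hinj, hadj⟩ := h
  have h1 := (TS.single (G := G) (p 0)).attach (fun i => p (i + 1)) (n - 1)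
    (fun i hi j hj hij => by have := hinj (i + 1) (by omega) (j + 1) (by omega) hij; omega)
    (fun i hi j hj hij => by
      have := (hadj (i + 1) (by omega) (j + 1) (by omega)).mp hij; omega)
    (fun i hi => (hadj (i + 1) (by omega) (i + 1 + 1) (by omega)).mpr (by omega))
    (fun i hi h2 => by
      have h3 : p (i + 1) = p 0 := h2
      have := hinj (i + 1) (by omega) 0 (by omega) h3; omega)
    (p 0) rfl (fun h => (hadj 1 (by omega) 0 (by omega)).mpr (by omega))
    (fun i hi z hz hz2 => by
      obtain rfl : z = p 0 := hz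
      have := (hadj (i + 1) (by omega) 0 (by omega)).mp hz2
      exact ⟨by omega, rfl⟩)
  have hset : ({p 0} ∪ {v | ∃ i < n - 1, p (i + 1) = v} : Set V) = {v | ∃ i < n, p i = v} := by
    ext v
    simp only [Set.mem_union, Set.mem_singleton_iff, Set.mem_ofPred_eq]
    constructor
    · rintro (rfl | ⟨i, hi, rfl⟩)
      · exact ⟨0, by omega, rfl⟩
      · exact ⟨i + 1, by omega, rfl⟩
    · rintro ⟨i, hi, rfl⟩
      rcases Nat.eq_zero_or_pos i with rfl | h2
      · exact Or.inl rfl
      · exact Or.inr ⟨i - 1, by omega, by congr 1; omega⟩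
  rw [hset, show 1 + (n - 1) = n by omega] at h1
  exact h1

/-- attaching a piece `p a, …, p b` of an induced path whose only edge to `T` is `p c — u` -/
theorem TS.seg {G : SimpleGraph V} {k : ℕ} {T : Set V} (hT : TS G k T) {u : V} (hu : u ∈ T)
    (p : ℕ → V) (a c b : ℕ) (hac : a ≤ c) (hcb : c ≤ b)
    (hinj : ∀ i, a ≤ i → i ≤ b → ∀ j, a ≤ j → j ≤ b → p i = p j → i = j)
    (hadj : ∀ i, a ≤ i → i ≤ b → ∀ j, a ≤ j → j ≤ b → (G.Adj (p i) (p j) ↔ (i = j + 1 ∨ j = i + 1)))
    (hout : ∀ i, a ≤ i → i ≤ b → p i ∉ T)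
    (hc : G.Adj (p c) u)
    (hT1 : ∀ i, a ≤ i → i ≤ b → ∀ z ∈ T, G.Adj (p i) z → i = c ∧ z = u) :
    TS G (k + (b - a + 1)) (T ∪ {v | ∃ i, a ≤ i ∧ i ≤ b ∧ p i = v}) := by
  have h1 := hT.attach (fun i => p (c + i)) (b - c + 1)
    (fun i hi j hj h => by
      have := hinj (c + i) (by omega) (by omega) (c + j) (by omega) (by omega) h; omega)
    (fun i hi j hj h => by
      have := (hadj (c + i) (by omega) (by omega) (c + j) (by omega) (by omega)).mp h; omega)
    (fun i hi => (hadj (c + i) (by omega) (by omega) (c + (i + 1)) (by omega) (by omega)).mpr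
      (by omega))
    (fun i hi => hout (c + i) (by omega) (by omega)) u hu (fun _ => hc)
    (fun i hi z hz h => by
      have := hT1 (c + i) (by omega) (by omega) z hz h
      exact ⟨by omega, this.2⟩)
  have hcmem : p c ∈ T ∪ {v | ∃ i < b - c + 1, (fun i => p (c + i)) i = v} :=
    Or.inr ⟨0, by omega, rfl⟩
  have h2 := h1.attach (fun i => p (c - 1 - i)) (c - a)
    (fun i hi j hj h => by
      have := hinj (c - 1 - i) (by omega) (by omega) (c - 1 - j) (by omega) (by omega) h; omega)
    (fun i hi j hj h => by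
      have := (hadj (c - 1 - i) (by omega) (by omega) (c - 1 - j) (by omega) (by omega)).mp h
      omega)
    (fun i hi => (hadj (c - 1 - i) (by omega) (by omega) (c - 1 - (i + 1)) (by omega)
      (by omega)).mpr (by omega))
    (fun i hi => by
      rintro (h | ⟨j, hj, h⟩)
      · exact hout (c - 1 - i) (by omega) (by omega) h
      · have := hinj (c + j) (by omega) (by omega) (c - 1 - i) (by omega) (by omega) h
        omega)
    (p c) hcmem
    (fun h => (hadj (c - 1 - 0) (by omega) (by omega) c (by omega) (by omega)).mpr (by omega))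
    (fun i hi z hz h => by
      rcases hz with hz | ⟨j, hj, rfl⟩
      · have := (hT1 (c - 1 - i) (by omega) (by omega) z hz h).1
        omega
      · have := (hadj (c - 1 - i) (by omega) (by omega) (c + j) (by omega) (by omega)).mp h
        have hj0 : j = 0 := by omega
        subst hj0
        exact ⟨by omega, rfl⟩)
  have hset : (T ∪ {v | ∃ i < b - c + 1, (fun i => p (c + i)) i = v}) ∪
      {v | ∃ i < c - a, (fun i => p (c - 1 - i)) i = v} =
      T ∪ {v | ∃ i, a ≤ i ∧ i ≤ b ∧ p i = v} := by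
    ext v
    simp only [Set.mem_union, Set.mem_ofPred_eq]
    constructor
    · rintro ((h | ⟨i, hi, rfl⟩) | ⟨i, hi, rfl⟩)
      · exact Or.inl h
      · exact Or.inr ⟨c + i, by omega, by omega, rfl⟩
      · exact Or.inr ⟨c - 1 - i, by omega, by omega, rfl⟩
    · rintro (h | ⟨i, h1, h2, rfl⟩)
      · exact Or.inl (Or.inl h)
      · rcases Nat.lt_or_ge i c with h3 | h3
        · exact Or.inr ⟨c - 1 - i, by omega, by congr 1; omega⟩
        · exact Or.inl (Or.inr ⟨i - c, by omega, by congr 1; omega⟩)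
  rw [hset] at h2
  rw [show k + (b - a + 1) = k + (b - c + 1) + (c - a) by omega]
  exact h2

/-- attaching two pieces `p 0, …, p (m-1)` and `p (m+1), …, p (n-1)` of an induced path -/
theorem TS.two_seg {G : SimpleGraph V} {k : ℕ} {T : Set V} (hT : TS G k T) {u : V} (hu : u ∈ T)
    (p : ℕ → V) (n : ℕ) (hp : IP G p n) (c m d : ℕ) (hcm : c < m) (hmd : m < d) (hd : d < n)
    (hout : ∀ i < n, p i ∉ T) (hc : G.Adj (p c) u) (hd' : G.Adj (p d) u)
    (hT1 : ∀ i < n, ∀ z ∈ T, G.Adj (p i) z → (i = c ∨ i = m ∨ i = d) ∧ z = u) :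
    TS G (k + (n - 1)) (T ∪ {v | ∃ i < n, i ≠ m ∧ p i = v}) := by
  obtain ⟨hinj, hadj⟩ := hp
  have h1 := hT.seg hu p 0 c (m - 1) (by omega) (by omega)
    (fun i _ hi j _ hj => hinj i (by omega) j (by omega))
    (fun i _ hi j _ hj => hadj i (by omega) j (by omega))
    (fun i _ hi => hout i (by omega)) hc
    (fun i _ hi z hz h => by
      have := hT1 i (by omega) z hz h
      exact ⟨by omega, this.2⟩)
  have h2 := h1.seg (u := u) (Or.inl hu) p (m + 1) d (n - 1) (by omega) (by omega)
    (fun i hi hi' j hj hj' => hinj i (by omega) j (by omega))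
    (fun i hi hi' j hj hj' => hadj i (by omega) j (by omega))
    (fun i hi hi' => by
      rintro (h | ⟨j, hj, hj', h⟩)
      · exact hout i (by omega) h
      · have := hinj j (by omega) i (by omega) h
        omega) hd'
    (fun i hi hi' z hz h => by
      rcases hz with hz | ⟨j, hj, hj', rfl⟩
      · have := hT1 i (by omega) z hz h
        exact ⟨by omega, this.2⟩
      · have := (hadj i (by omega) j (by omega)).mp h
        omega)
  have hset : (T ∪ {v | ∃ i, 0 ≤ i ∧ i ≤ m - 1 ∧ p i = v}) ∪
      {v | ∃ i, m + 1 ≤ i ∧ i ≤ n - 1 ∧ p i = v} = T ∪ {v | ∃ i < n, i ≠ m ∧ p i = v} := by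
    ext v
    simp only [Set.mem_union, Set.mem_ofPred_eq]
    constructor
    · rintro ((h | ⟨i, hi, hi', rfl⟩) | ⟨i, hi, hi', rfl⟩)
      · exact Or.inl h
      · exact Or.inr ⟨i, by omega, by omega, rfl⟩
      · exact Or.inr ⟨i, by omega, by omega, rfl⟩
    · rintro (h | ⟨i, hi, hi', rfl⟩)
      · exact Or.inl (Or.inl h)
      · rcases Nat.lt_or_ge i m with h3 | h3
        · exact Or.inl (Or.inr ⟨i, by omega, by omega, rfl⟩)
        · exact Or.inr ⟨i, by omega, by omega, rfl⟩
  rw [hset] at h2
  rw [show k + (n - 1) = k + (m - 1 - 0 + 1) + (n - 1 - (m + 1) + 1) by omega]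
  exact h2

end Q38.TR
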