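import Pool.Agent.Q273.TR.Stm

set_option autoImplicit false

/-! # Project TR (helper273), job CORE: the parts of the main measure theoretic argument (helper38) -/

namespace Pool.Agent.Q38.TR

open Polynomial MeasureTheory Q273.TR Filter
open scoped ENNReal

/-! ## Values of polynomials -/

theorem DD_Pf {n : ℕ} (f : Fin n → ℤ[X]) (u : Fin n → ℤ) (j : ℕ) (z : ℝ) :
    DD j (Pf f u) z = ∑ i, (u i : ℝ) * DD j (f i) z := by
  unfold DD Pf
  rw [map_sum, Polynomial.map_sum, eval_finsetSum]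
  refine Finset.sum_congr rfl fun i _ => ?_
  rw [← smul_eq_C_mul, map_smul, smul_eq_C_mul, Polynomial.map_mul, map_C, eval_mul, eval_C]
  rfl

theorem DD_sub {n : ℕ} (f : Fin n → ℤ[X]) (a b : Fin n → ℤ) (j : ℕ) (z : ℝ) :
    DD j (Pf f (a - b)) z = DD j (Pf f a) z - DD j (Pf f b) z := by
  rw [DD_Pf, DD_Pf, DD_Pf, ← Finset.sum_sub_distrib]
  refine Finset.sum_congr rfl fun i _ => ?_
  rw [Pi.sub_apply]
  push_cast
  ring

theorem DD_bd (P : ℤ[X]) : ∃ B : ℝ, 0 ≤ B ∧ ∀ j, ∀ z ∈ Set.Icc (0 : ℝ) 1, |DD j P z| ≤ B := by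
  have h : ∀ j : ℕ, ∃ B : ℝ, 0 ≤ B ∧ ∀ z ∈ Set.Icc (0 : ℝ) 1, |DD j P z| ≤ B := by
    intro j
    obtain ⟨B, hB⟩ := (isCompact_Icc (a := (0 : ℝ)) (b := 1)).exists_bound_of_continuousOn
      (f := fun z => DD j P z) (by
        unfold DD
        exact (Polynomial.continuous _).continuousOn)
    refine ⟨|B|, abs_nonneg _, fun z hz => ?_⟩
    exact (hB z hz).trans (le_abs_self B)
  choose B hB0 hB using h
  refine ⟨∑ j ∈ Finset.range (P.natDegree + 1), B j, Finset.sum_nonneg fun j _ => hB0 j,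
    fun j z hz => ?_⟩
  by_cases hj : j ≤ P.natDegree
  · exact (hB j z hz).trans (Finset.single_le_sum (f := B) (fun i _ => hB0 i)
      (Finset.mem_range.2 (by omega)))
  · unfold DD
    rw [hasseDeriv_eq_zero_of_lt_natDegree P j (by omega), Polynomial.map_zero, eval_zero, abs_zero]
    exact Finset.sum_nonneg fun j _ => hB0 j

theorem DD_le {n : ℕ} (f : Fin n → ℤ[X]) : ∃ C : ℝ, 1 ≤ C ∧ ∀ (u : Fin n → ℤ) (T : ℝ), 0 ≤ T →
    (∀ i, |(u i : ℝ)| ≤ T) → ∀ j, ∀ z ∈ Set.Icc (0 : ℝ) 1, |DD j (Pf f u) z| ≤ C * T := by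
  choose B hB0 hB using fun i => DD_bd (f i)
  refine ⟨1 + ∑ i, B i, le_add_of_nonneg_right (Finset.sum_nonneg fun i _ => hB0 i),
    fun u T hT hu j z hz => ?_⟩
  rw [DD_Pf]
  calc |∑ i, (u i : ℝ) * DD j (f i) z| ≤ ∑ i, |(u i : ℝ) * DD j (f i) z| :=
        Finset.abs_sum_le_sum_abs _ _
    _ ≤ ∑ i, T * B i := Finset.sum_le_sum fun i _ => by
        rw [abs_mul]
        exact mul_le_mul (hu i) (hB i j z hz) (abs_nonneg _) hT
    _ = (∑ i, B i) * T := by rw [← Finset.mul_sum, mul_comm]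
    _ ≤ (1 + ∑ i, B i) * T := mul_le_mul_of_nonneg_right (by linarith) hT

theorem DD_zero (P : ℤ[X]) (z : ℝ) : DD 0 P z = (P.map (Int.castRingHom ℝ)).eval z := by
  unfold DD
  rw [hasseDeriv_zero]
  rfl

theorem DD_one (P : ℤ[X]) (z : ℝ) :
    DD 1 P z = (derivative (P.map (Int.castRingHom ℝ))).eval z := by
  unfold DD
  rw [hasseDeriv_one, ← derivative_map]

theorem DD_two (P : ℤ[X]) (z : ℝ) :
    (derivative (derivative (P.map (Int.castRingHom ℝ)))).eval z = 2 * DD 2 P z := by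
  unfold DD
  have h : (Nat.factorial 2 • hasseDeriv 2 : ℤ[X] →ₗ[ℤ] ℤ[X]) P = derivative^[2] P :=
    congrFun (factorial_smul_hasseDeriv (R := ℤ) 2) P
  have h2 : derivative (derivative P) = 2 * hasseDeriv 2 P := by
    rw [Function.iterate_succ, Function.iterate_one, Function.comp_apply] at h
    rw [← h, LinearMap.smul_apply]
    simp [Nat.factorial]
  rw [Polynomial.derivative_map, Polynomial.derivative_map, h2]
  simp

/-! ## Powers -/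

theorem two_pow_rpow (t : ℕ) (x : ℝ) : ((2 : ℝ) ^ t) ^ x = ((2 : ℝ) ^ x) ^ t := by
  rw [← Real.rpow_natCast, ← Real.rpow_natCast, ← Real.rpow_mul (by norm_num),
    ← Real.rpow_mul (by norm_num), mul_comm]

theorem q_lt {η : ℝ} (hη : 0 < η) : (2 : ℝ) ^ (-η) < 1 :=
  Real.rpow_lt_one_of_one_lt_of_neg (by norm_num) (by linarith)

theorem q_pos (η : ℝ) : 0 < (2 : ℝ) ^ (-η) := Real.rpow_pos_of_pos (by norm_num) _

/-- **KMV at the scale `2 ^ t`.** -/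
theorem kmv_bound (hK : S_KMV) {m : ℕ} (f : Fin (m + 2) → ℤ[X]) (hf : LinearIndependent ℤ f)
    (D0 D1 D2 x y η : ℝ) (hD0 : 0 < D0) (hD1 : 0 < D1) (hD2 : 1 ≤ D2) (hη : 0 < η) (hx : x ≤ -η)
    (hxy : x + y + m ≤ -η) : ∃ D q : ℝ, 0 < D ∧ 0 < q ∧ q < 1 ∧ ∃ t0 : ℕ, ∀ t : ℕ, t0 ≤ t →
      volume {z : ℝ | z ∈ Set.Ico (0 : ℝ) 1 ∧ ∃ u : Fin (m + 2) → ℤ, u ≠ 0 ∧
        |DD 0 (Pf f u) z| ≤ D0 * ((2 : ℝ) ^ t) ^ x ∧ |DD 1 (Pf f u) z| ≤ D1 * ((2 : ℝ) ^ t) ^ y ∧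
        ∀ j < m + 2, |DD j (Pf f u) z| ≤ D2 * (2 : ℝ) ^ t} ≤ ENNReal.ofReal (D * q ^ t) := by
  obtain ⟨C, δ, hC, hδ, h⟩ := hK m (Finset.univ.sup fun i => (f i).natDegree)
  have hA : 0 < D0 * (1 + D1 * D2 ^ m) := by positivity
  obtain ⟨A, hAe⟩ : ∃ A : ℝ, A = D0 * (1 + D1 * D2 ^ m) := ⟨_, rfl⟩
  rw [← hAe] at hA
  have ht0 : ∀ᶠ t : ℕ in atTop, A * ((2 : ℝ) ^ (-η)) ^ t ≤ 1 := by
    have h1 := (tendsto_pow_atTop_nhds_zero_of_lt_one (q_pos η).le (q_lt hη)).const_mul A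
    rw [mul_zero] at h1
    exact h1.eventually_le_const one_pos
  obtain ⟨t0, ht0⟩ := eventually_atTop.1 ht0
  refine ⟨C * A ^ δ, (2 : ℝ) ^ (-(η * δ)), mul_pos hC (Real.rpow_pos_of_pos hA _), q_pos _,
    q_lt (mul_pos hη hδ), t0, fun t ht => ?_⟩
  have hT : (1 : ℝ) ≤ (2 : ℝ) ^ t := one_le_pow₀ (by norm_num)
  have hT0 : (0 : ℝ) < (2 : ℝ) ^ t := by positivity
  have h2 := h f hf (fun i => Finset.le_sup (f := fun i => (f i).natDegree) (Finset.mem_univ i))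
    (D0 * ((2 : ℝ) ^ t) ^ x) (D1 * ((2 : ℝ) ^ t) ^ y) (D2 * (2 : ℝ) ^ t)
    (A * ((2 : ℝ) ^ t) ^ (-η)) (by positivity) (by positivity) (by nlinarith) (by
      have h3 : ((2 : ℝ) ^ t) ^ x ≤ ((2 : ℝ) ^ t) ^ (-η) := Real.rpow_le_rpow_of_exponent_le hT hx
      have h4 : D0 ≤ A := by
        rw [hAe]
        have : 0 ≤ D0 * (D1 * D2 ^ m) := by positivity
        linarith
      exact mul_le_mul h4 h3 (by positivity) hA.le) (by
      have h3 : ((2 : ℝ) ^ t) ^ (x + y + m) ≤ ((2 : ℝ) ^ t) ^ (-η) :=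
        Real.rpow_le_rpow_of_exponent_le hT hxy
      have h4 : D0 * (D1 * D2 ^ m) ≤ A := by
        rw [hAe]
        linarith
      have h5 : D0 * ((2 : ℝ) ^ t) ^ x * (D1 * ((2 : ℝ) ^ t) ^ y) * (D2 * (2 : ℝ) ^ t) ^ m =
          D0 * (D1 * D2 ^ m) * ((2 : ℝ) ^ t) ^ (x + y + m) := by
        rw [Real.rpow_add hT0, Real.rpow_add hT0, Real.rpow_natCast, mul_pow]
        ring
      rw [h5]
      exact mul_le_mul h4 h3 (by positivity) hA.le) (by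
      rw [two_pow_rpow]
      exact ht0 t ht)
  refine h2.trans (ENNReal.ofReal_le_ofReal (le_of_eq ?_))
  rw [Real.mul_rpow hA.le (by positivity), ← Real.rpow_mul hT0.le, neg_mul, two_pow_rpow, mul_assoc]

end Pool.Agent.Q38.TR
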