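import Pool.Agent.Q38.TR.CoreA

set_option autoImplicit false

/-! # Project TR (helper273), job CORE: the classes (helper38) -/

namespace Pool.Agent.Q38.TR

open Polynomial MeasureTheory Q273.TR Filter
open scoped ENNReal

/-- representatives of the classes -/
theorem exists_reps {M : Type} [AddCommGroup M] (V : Submodule ℤ M) (S : Set M) (hS : S.Finite) :
    ∃ F : Finset M, (∀ a ∈ F, a ∈ S) ∧ (∀ a ∈ F, ∀ b ∈ F, a ≠ b → a - b ∉ V) ∧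
      ∀ a ∈ S, ∃ e ∈ F, a - e ∈ V := by
  classical
  have h : Set.SurjOn (Submodule.Quotient.mk (p := V)) S (Submodule.Quotient.mk (p := V) '' S) :=
    Set.surjOn_image _ _
  obtain ⟨u, hu, hinj, himg⟩ := h.exists_subset_injOn_image_eq
  refine ⟨(hS.subset hu).toFinset, fun a ha => hu ((hS.subset hu).mem_toFinset.1 ha),
    fun a ha b hb hab hV => ?_, fun a ha => ?_⟩
  · rw [Set.Finite.mem_toFinset] at ha hb
    exact hab (hinj ha hb ((Submodule.Quotient.eq V).2 hV))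
  · have h1 : (Submodule.Quotient.mk a : M ⧸ V) ∈ Submodule.Quotient.mk (p := V) '' u := by
      rw [himg]
      exact ⟨a, ha, rfl⟩
    obtain ⟨e, he, hea⟩ := h1
    exact ⟨e, (hS.subset hu).mem_toFinset.2 he, (Submodule.Quotient.eq V).1 hea.symm⟩

theorem finite_box {n : ℕ} (T : ℕ) : {a : Fin n → ℤ | ∀ i, |a i| ≤ (T : ℤ)}.Finite := by
  have h : {a : Fin n → ℤ | ∀ i, |a i| ≤ (T : ℤ)} ⊆ Set.Icc (fun _ => -(T : ℤ)) (fun _ => (T : ℤ)) := by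
    intro a ha
    exact ⟨fun i => (abs_le.1 (ha i)).1, fun i => (abs_le.1 (ha i)).2⟩
  exact (Set.finite_Icc _ _).subset h

/-- **CELL for all the classes.** -/
theorem cell_bound (hC : S_CELL) {n : ℕ} (f : Fin n → ℤ[X]) (V : Submodule ℤ (Fin n → ℤ))
    (Bs : Set (Fin n → ℤ)) (Wt : (Fin n → ℤ) → ℝ) (hW : ∀ a ∈ Bs, 1 ≤ Wt a)
    (hWV : ∀ a ∈ Bs, ∀ b ∈ Bs, a - b ∈ V → Wt a = Wt b) (C1 : ℝ) (hC1 : 1 ≤ C1)
    (hf : ∀ (u : Fin n → ℤ) (T : ℝ), 0 ≤ T → (∀ i, |(u i : ℝ)| ≤ T) → ∀ j,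
      ∀ z ∈ Set.Icc (0 : ℝ) 1, |DD j (Pf f u) z| ≤ C1 * T)
    (T : ℕ) (S : ℝ) (hS : ∀ F : Finset (Fin n → ℤ), (∀ a ∈ F, a ∈ Bs ∧ ∀ i, |a i| ≤ T) →
      (∀ a ∈ F, ∀ b ∈ F, a ≠ b → a - b ∉ V) → ∑ a ∈ F, (Wt a)⁻¹ ≤ S)
    (κ w K : ℝ) (E : Set ℝ) (hκ : 0 < κ) (hw : 0 < w) (hK : 0 < K) (hwK : w ≤ K)
    (hL : 2 * C1 * T * (w / K) ≤ K / 4)
    (hE : ∀ a ∈ Bs, ∀ b ∈ Bs, (∀ i, |a i| ≤ T) → (∀ i, |b i| ≤ T) → a ≠ b → a - b ∈ V →
      ∀ z ∈ Set.Ico (0 : ℝ) 1, |DD 0 (Pf f a) z - DD 0 (Pf f b) z| ≤ 2 * κ + 3 * w → z ∈ E) :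
    volume {z : ℝ | z ∈ Set.Ico (0 : ℝ) 1 ∧ z ∉ E ∧ ∃ a ∈ Bs, (∀ i, |a i| ≤ (T : ℤ)) ∧
      |DD 0 (Pf f a) z| ≤ κ * (Wt a)⁻¹ ∧ K / 2 < |DD 1 (Pf f a) z| ∧ |DD 1 (Pf f a) z| ≤ K} ≤
        ENNReal.ofReal (16 * κ / w * S) := by
  classical
  obtain ⟨F, hF1, hF2, hF3⟩ := exists_reps V {a : Fin n → ℤ | a ∈ Bs ∧ ∀ i, |a i| ≤ (T : ℤ)}
    ((finite_box T).subset fun a ha => ha.2)
  have hcast : ∀ a : Fin n → ℤ, (∀ i, |a i| ≤ (T : ℤ)) → ∀ i, |(a i : ℝ)| ≤ (T : ℝ) := by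
    intro a ha i
    have := ha i
    exact_mod_cast this
  have hcell : ∀ e ∈ F, volume {z : ℝ | z ∈ Set.Ico (0 : ℝ) 1 ∧ z ∉ E ∧
      ∃ a : {a : Fin n → ℤ // a ∈ Bs ∧ (∀ i, |a i| ≤ (T : ℤ)) ∧ a - e ∈ V},
        |((Pf f a.1).map (Int.castRingHom ℝ)).eval z| ≤ κ * (Wt e)⁻¹ ∧
        K / 2 < |(derivative ((Pf f a.1).map (Int.castRingHom ℝ))).eval z| ∧
        |(derivative ((Pf f a.1).map (Int.castRingHom ℝ))).eval z| ≤ K} ≤
          ENNReal.ofReal (16 * κ / w * (Wt e)⁻¹) := by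
    intro e he
    have hWe : 1 ≤ Wt e := hW e (hF1 e he).1
    have hWe0 : 0 < (Wt e)⁻¹ := by positivity
    have hWe1 : (Wt e)⁻¹ ≤ 1 := inv_le_one_of_one_le₀ hWe
    have hρ : w / K * K = w := div_mul_cancel₀ w hK.ne'
    have h1 := hC {a : Fin n → ℤ // a ∈ Bs ∧ (∀ i, |a i| ≤ (T : ℤ)) ∧ a - e ∈ V}
      (fun a => (Pf f a.1).map (Int.castRingHom ℝ)) (κ * (Wt e)⁻¹) K (2 * C1 * T) (w / K) E
      (by positivity) hK (by positivity) (by positivity) ((div_le_one hK).2 hwK) hL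
      (fun a z hz => by
        rw [DD_two, abs_mul, abs_two, mul_assoc]
        exact mul_le_mul_of_nonneg_left (hf a.1 T (Nat.cast_nonneg T) (hcast _ a.2.2.1) 2 z hz)
          (by norm_num))
      (fun a b hab z hz h2 _ => by
        refine hE a.1 a.2.1 b.1 b.2.1 a.2.2.1 b.2.2.1 (fun h => hab (Subtype.ext h)) ?_ z hz ?_
        · have h3 := V.sub_mem a.2.2.2 b.2.2.2
          rwa [sub_sub_sub_cancel_right] at h3
        · rw [DD_zero, DD_zero]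
          refine h2.trans ?_
          have h4 : κ * (Wt e)⁻¹ ≤ κ := by nlinarith
          have h5 : 3 * K * (w / K) = 3 * w := by rw [mul_assoc, mul_comm K, hρ]
          rw [h5]
          linarith)
    refine h1.trans (ENNReal.ofReal_le_ofReal (le_of_eq ?_))
    rw [hρ]
    ring
  have hsub : {z : ℝ | z ∈ Set.Ico (0 : ℝ) 1 ∧ z ∉ E ∧ ∃ a ∈ Bs, (∀ i, |a i| ≤ (T : ℤ)) ∧
      |DD 0 (Pf f a) z| ≤ κ * (Wt a)⁻¹ ∧ K / 2 < |DD 1 (Pf f a) z| ∧ |DD 1 (Pf f a) z| ≤ K} ⊆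
      ⋃ e ∈ F, {z : ℝ | z ∈ Set.Ico (0 : ℝ) 1 ∧ z ∉ E ∧
        ∃ a : {a : Fin n → ℤ // a ∈ Bs ∧ (∀ i, |a i| ≤ (T : ℤ)) ∧ a - e ∈ V},
          |((Pf f a.1).map (Int.castRingHom ℝ)).eval z| ≤ κ * (Wt e)⁻¹ ∧
          K / 2 < |(derivative ((Pf f a.1).map (Int.castRingHom ℝ))).eval z| ∧
          |(derivative ((Pf f a.1).map (Int.castRingHom ℝ))).eval z| ≤ K} := by
    rintro z ⟨hz, hzE, a, haB, haT, h0, h1, h2⟩
    obtain ⟨e, heF, hea⟩ := hF3 a ⟨haB, haT⟩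
    rw [Set.mem_iUnion₂]
    refine ⟨e, heF, hz, hzE, ⟨a, haB, haT, hea⟩, ?_, ?_, ?_⟩
    · rw [← DD_zero, ← hWV a haB e (hF1 e heF).1 hea]
      exact h0
    · rw [← DD_one]
      exact h1
    · rw [← DD_one]
      exact h2
  refine (measure_mono hsub).trans ((measure_biUnion_finset_le F _).trans
    ((Finset.sum_le_sum hcell).trans ?_))
  rw [← ENNReal.ofReal_sum_of_nonneg (fun e he => by
    have hWe : 1 ≤ Wt e := hW e (hF1 e he).1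
    positivity), ← Finset.mul_sum]
  exact ENNReal.ofReal_le_ofReal (mul_le_mul_of_nonneg_left (hS F (fun a ha => hF1 a ha) hF2)
    (by positivity))

/-- a basis of the sublattice -/
theorem exists_sub {n m : ℕ} (f : Fin n → ℤ[X]) (hf : LinearIndependent ℤ f)
    (V : Submodule ℤ (Fin n → ℤ)) (hV : Module.finrank ℤ V = m + 2) :
    ∃ g : Fin (m + 2) → ℤ[X], LinearIndependent ℤ g ∧
      ∀ v ∈ V, v ≠ 0 → ∃ c : Fin (m + 2) → ℤ, c ≠ 0 ∧ Pf g c = Pf f v := by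
  classical
  have hPf : ∀ u, Pf f u = Fintype.linearCombination ℤ f u := by
    intro u
    rw [Fintype.linearCombination_apply]
    unfold Pf
    refine Finset.sum_congr rfl fun i _ => ?_
    rw [smul_eq_C_mul]
  have hinj : Function.Injective (Fintype.linearCombination ℤ f) :=
    linearIndependent_iff_injective_fintypeLinearCombination.1 hf
  let b := Module.finBasisOfFinrankEq ℤ V hV
  have hg : LinearIndependent ℤ (fun i => Fintype.linearCombination ℤ f (b i : Fin n → ℤ)) := by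
    have h1 := b.linearIndependent
    have h2 := h1.map' (V.subtype) (Submodule.ker_subtype V)
    exact h2.map' (Fintype.linearCombination ℤ f) (LinearMap.ker_eq_bot.2 hinj)
  refine ⟨fun i => Fintype.linearCombination ℤ f (b i : Fin n → ℤ), hg, fun v hv hv0 => ?_⟩
  refine ⟨fun i => b.repr ⟨v, hv⟩ i, ?_, ?_⟩
  · intro h0
    apply hv0
    have h1 : b.repr ⟨v, hv⟩ = 0 := by
      ext i
      exact congrFun h0 i
    have h2 : (⟨v, hv⟩ : V) = 0 := by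
      rw [← b.repr.map_eq_zero_iff]
      exact h1
    exact congrArg Subtype.val h2
  · rw [hPf]
    unfold Pf
    have h1 := congrArg (fun x : V => Fintype.linearCombination ℤ f (x : Fin n → ℤ))
      (b.sum_repr ⟨v, hv⟩)
    simp only [Submodule.coe_sum, Submodule.coe_smul, map_sum, map_smul] at h1
    rw [← h1]
    refine Finset.sum_congr rfl fun i _ => ?_
    rw [smul_eq_C_mul]

end Pool.Agent.Q38.TR
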