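import Pool.Agent.Q38.TR.CoreB

set_option autoImplicit false

/-! # Project TR (helper273), job CORE: the theorem on the unit interval (helper38) -/

namespace Pool.Agent.Q38.TR

open Polynomial MeasureTheory Q273.TR Filter
open scoped ENNReal

theorem sz_le {n : ℕ} (a : Fin n → ℤ) (i : Fin n) : (a i).natAbs ≤ sz a :=
  Finset.le_sup (f := fun i => (a i).natAbs) (Finset.mem_univ i)

theorem abs_le_of_sz {n : ℕ} (a : Fin n → ℤ) {T : ℕ} (h : sz a ≤ T) (i : Fin n) :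
    |a i| ≤ (T : ℤ) := by
  have h1 := (sz_le a i).trans h
  rw [Int.abs_eq_natAbs]
  exact_mod_cast h1

theorem sz_pos {n : ℕ} (a : Fin n → ℤ) (h : a ≠ 0) : 1 ≤ sz a := by
  obtain ⟨i, hi⟩ : ∃ i, a i ≠ 0 := by
    by_contra hcon
    push Not at hcon
    exact h (funext hcon)
  exact le_trans (Int.natAbs_pos.2 hi) (sz_le a i)

/-- the scale of a number -/
theorem exists_scale {N : ℕ} {t1 : ℕ} (h : 2 ^ t1 < N) : ∃ t : ℕ, t1 ≤ t ∧ N ≤ 2 ^ t ∧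
    (2 : ℝ) ^ t ≤ 2 * N := by
  refine ⟨Nat.clog 2 N, ?_, Nat.le_pow_clog one_lt_two N, ?_⟩
  · have h1 := Nat.le_pow_clog one_lt_two N
    have h2 := h.trans_le h1
    exact ((Nat.pow_lt_pow_iff_right one_lt_two).1 h2).le
  · have h1 : 1 < N := lt_of_le_of_lt Nat.one_le_two_pow h
    have h2 := Nat.pow_pred_clog_lt_self one_lt_two h1
    have h3 : 0 < Nat.clog 2 N := Nat.clog_pos one_lt_two h1
    have h4 : 2 ^ Nat.clog 2 N = 2 * 2 ^ (Nat.clog 2 N).pred := by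
      have h6 : (Nat.clog 2 N).pred + 1 = Nat.clog 2 N := Nat.succ_pred_eq_of_pos h3
      rw [← pow_succ', h6]
    have h5 : 2 ^ Nat.clog 2 N ≤ 2 * N := by
      rw [h4]
      exact Nat.mul_le_mul_left 2 h2.le
    exact_mod_cast h5

/-- the dyadic size of a number -/
theorem exists_dyadic {v : ℝ} (hv : 1 < v) {J : ℕ} (hJ : v ≤ (2 : ℝ) ^ J) :
    ∃ j ∈ Finset.Icc 1 J, (2 : ℝ) ^ j / 2 < v ∧ v ≤ (2 : ℝ) ^ j := by
  classical
  have hex : ∃ j : ℕ, v ≤ (2 : ℝ) ^ j := ⟨J, hJ⟩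
  have h1 := Nat.find_spec hex
  have h2 : Nat.find hex ≤ J := Nat.find_min' hex hJ
  have h3 : 1 ≤ Nat.find hex := by
    by_contra h
    have h0 : Nat.find hex = 0 := by omega
    rw [h0, pow_zero] at h1
    linarith
  refine ⟨Nat.find hex, Finset.mem_Icc.2 ⟨h3, h2⟩, ?_, h1⟩
  have h4 := Nat.find_min hex (m := Nat.find hex - 1) (by omega)
  rw [not_le] at h4
  have h5 : (2 : ℝ) ^ Nat.find hex / 2 = (2 : ℝ) ^ (Nat.find hex - 1) := by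
    conv_lhs => rw [← Nat.sub_add_cancel h3, pow_succ]
    ring
  rw [h5]
  exact h4

/-- the size and the scale -/
theorem rpow_scale {N t r : ℕ} {x : ℝ} (hx : x ≤ 0) (hxr : -x ≤ r + 1) (hN : 1 ≤ N)
    (h : (2 : ℝ) ^ t ≤ 2 * N) : (N : ℝ) ^ x ≤ 2 ^ (r + 1) * ((2 : ℝ) ^ t) ^ x := by
  have hN0 : (0 : ℝ) < N := by exact_mod_cast hN
  have h1 : (2 * (N : ℝ)) ^ x ≤ ((2 : ℝ) ^ t) ^ x :=
    Real.rpow_le_rpow_of_nonpos (by positivity) h hx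
  have h2 : (N : ℝ) ^ x = (2 : ℝ) ^ (-x) * (2 * (N : ℝ)) ^ x := by
    rw [Real.mul_rpow (by norm_num) hN0.le, ← mul_assoc, ← Real.rpow_add (by norm_num),
      neg_add_cancel, Real.rpow_zero, one_mul]
  have h3 : (2 : ℝ) ^ (-x) ≤ 2 ^ (r + 1) := by
    rw [← Real.rpow_natCast]
    refine Real.rpow_le_rpow_of_exponent_le (by norm_num) ?_
    push_cast
    exact hxr
  rw [h2]
  exact mul_le_mul h3 h1 (by positivity) (by positivity)

/-- **The theorem on the unit interval.** -/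
theorem core01 (hK : S_KMV) (hC : S_CELL) {n' k r : ℕ} (f : Fin (n' + 2) → ℤ[X])
    (V : Submodule ℤ (Fin (n' + 2) → ℤ)) (Bs : Set (Fin (n' + 2) → ℤ))
    (Wt : (Fin (n' + 2) → ℤ) → ℝ) (hf : LinearIndependent ℤ f)
    (hrank : Module.finrank ℤ V + k = n' + 2) (hkn : k ≤ n') (hnr : n' + 1 ≤ r)
    (h3k : 3 * k ≤ r + 1) (hW : ∀ a ∈ Bs, 1 ≤ Wt a)
    (hWV : ∀ a ∈ Bs, ∀ b ∈ Bs, a - b ∈ V → Wt a = Wt b)
    (hS : ∀ ε : ℝ, 0 < ε → ∃ C : ℝ, ∀ (T : ℕ) (F : Finset (Fin (n' + 2) → ℤ)), 1 ≤ T →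
      (∀ a ∈ F, a ∈ Bs ∧ ∀ i, |a i| ≤ T) → (∀ a ∈ F, ∀ b ∈ F, a ≠ b → a - b ∉ V) →
        ∑ a ∈ F, (Wt a)⁻¹ ≤ C * (T : ℝ) ^ ε) (ε : ℝ) (hε : 0 < ε) (hε1 : ε ≤ 1) :
    ∀ᵐ z : ℝ, z ∈ Set.Ico (0 : ℝ) 1 → {a | a ∈ Bs ∧ a ≠ 0 ∧
      |DD 0 (Pf f a) z| ≤ (sz a : ℝ) ^ ((k : ℝ) - r - ε) * (Wt a)⁻¹}.Finite := by
  classical
  obtain ⟨C1, hC1, hfC⟩ := DD_le f
  obtain ⟨A, hA⟩ : ∃ A : ℕ, C1 ≤ (2 : ℝ) ^ A := by
    obtain ⟨A, hA⟩ := pow_unbounded_of_one_lt C1 (by norm_num : (1 : ℝ) < 2)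
    exact ⟨A, hA.le⟩
  obtain ⟨m, hm⟩ : ∃ m, m + k = n' := ⟨n' - k, by omega⟩
  obtain ⟨g, hg, hgV⟩ := exists_sub (m := m) f hf V (by omega)
  obtain ⟨CS0, hCS0⟩ := hS (ε / 4) (by positivity)
  obtain ⟨CS, hCSe⟩ : ∃ CS : ℝ, CS = |CS0| := ⟨_, rfl⟩
  have hCSn : 0 ≤ CS := by rw [hCSe]; exact abs_nonneg _
  -- real inequalities between the parameters
  have e1 : (m : ℝ) + k = n' := by exact_mod_cast hm
  have e2 : (n' : ℝ) + 1 ≤ r := by exact_mod_cast hnr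
  have e3 : 3 * (k : ℝ) ≤ r + 1 := by exact_mod_cast h3k
  have e4 : (0 : ℝ) ≤ m := Nat.cast_nonneg m
  have e5 : (0 : ℝ) ≤ k := Nat.cast_nonneg k
  obtain ⟨c3, hc3⟩ : ∃ c3 : ℝ, c3 = 1 / (2 * C1) := ⟨_, rfl⟩
  have hC10 : 0 < C1 := by linarith
  have hc30 : 0 < c3 := by rw [hc3]; positivity
  have hc31 : c3 ≤ 1 := by
    rw [hc3, div_le_one (by positivity)]
    linarith
  have hκ0 : (0 : ℝ) < 2 ^ (r + 1) := by positivity
  obtain ⟨DG, qG, hDG, hqG0, hqG1, tG, hG⟩ := kmv_bound hK f hf (2 ^ (r + 1)) 1 C1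
    ((k : ℝ) - r - ε) (1 - k + ε / 2) (ε / 2) hκ0 one_pos hC1 (by positivity) (by linarith)
    (by linarith)
  obtain ⟨DE, qE, hDE, hqE0, hqE1, tE, hE⟩ := kmv_bound hK g hg (2 * 2 ^ (r + 1) + 3 * c3)
    (2 * C1) (2 * C1) ((k : ℝ) - r - ε / 2) 1 (ε / 2) (by positivity) (by positivity)
    (by linarith) (by positivity) (by linarith) (by linarith)
  obtain ⟨DI, hDI⟩ : ∃ DI : ℝ, DI = 16 * 2 ^ (r + 1) / c3 * CS := ⟨_, rfl⟩
  have hDI0 : 0 ≤ DI := by rw [hDI]; positivity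
  -- the bad sets
  obtain ⟨G, hGe⟩ : ∃ G : ℕ → Set ℝ, ∀ t, G t = {z : ℝ | z ∈ Set.Ico (0 : ℝ) 1 ∧
      ∃ u : Fin (n' + 2) → ℤ, u ≠ 0 ∧
        |DD 0 (Pf f u) z| ≤ 2 ^ (r + 1) * ((2 : ℝ) ^ t) ^ ((k : ℝ) - r - ε) ∧
        |DD 1 (Pf f u) z| ≤ 1 * ((2 : ℝ) ^ t) ^ (1 - (k : ℝ) + ε / 2) ∧
        ∀ j < n' + 2, |DD j (Pf f u) z| ≤ C1 * (2 : ℝ) ^ t} := ⟨_, fun t => rfl⟩
  obtain ⟨E, hEe⟩ : ∃ E : ℕ → Set ℝ, ∀ t, E t = {z : ℝ | z ∈ Set.Ico (0 : ℝ) 1 ∧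
      ∃ u : Fin (m + 2) → ℤ, u ≠ 0 ∧
        |DD 0 (Pf g u) z| ≤ (2 * 2 ^ (r + 1) + 3 * c3) * ((2 : ℝ) ^ t) ^ ((k : ℝ) - r - ε / 2) ∧
        |DD 1 (Pf g u) z| ≤ 2 * C1 * ((2 : ℝ) ^ t) ^ (1 : ℝ) ∧
        ∀ j < m + 2, |DD j (Pf g u) z| ≤ 2 * C1 * (2 : ℝ) ^ t} := ⟨_, fun t => rfl⟩
  obtain ⟨II, hIIe⟩ : ∃ II : ℕ → ℕ → Set ℝ, ∀ t j, II t j = {z : ℝ | z ∈ Set.Ico (0 : ℝ) 1 ∧
      z ∉ E t ∧ ∃ a ∈ Bs, (∀ i, |a i| ≤ ((2 ^ t : ℕ) : ℤ)) ∧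
        |DD 0 (Pf f a) z| ≤ 2 ^ (r + 1) * ((2 : ℝ) ^ t) ^ ((k : ℝ) - r - ε) * (Wt a)⁻¹ ∧
        2 ^ j * ((2 : ℝ) ^ t) ^ (1 - (k : ℝ) + ε / 2) / 2 < |DD 1 (Pf f a) z| ∧
        |DD 1 (Pf f a) z| ≤ 2 ^ j * ((2 : ℝ) ^ t) ^ (1 - (k : ℝ) + ε / 2)} :=
    ⟨_, fun t j => rfl⟩
  have hII : ∀ t j : ℕ, 1 ≤ j → volume (II t j) ≤
      ENNReal.ofReal (DI * ((2 : ℝ) ^ (-(ε / 4))) ^ t) := by
    intro t j hj
    rw [hIIe]
    have hT : (1 : ℝ) ≤ (2 : ℝ) ^ t := one_le_pow₀ (by norm_num)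
    have hT0 : (0 : ℝ) < (2 : ℝ) ^ t := by positivity
    have hTn : (((2 ^ t : ℕ) : ℝ)) = (2 : ℝ) ^ t := by push_cast; rfl
    have hj2 : (2 : ℝ) ≤ 2 ^ j := by
      calc (2 : ℝ) = 2 ^ 1 := (pow_one _).symm
        _ ≤ 2 ^ j := pow_le_pow_right₀ (by norm_num) hj
    have hy0 : 0 < ((2 : ℝ) ^ t) ^ (1 - (k : ℝ) + ε / 2) := Real.rpow_pos_of_pos hT0 _
    have hx0 : 0 < ((2 : ℝ) ^ t) ^ ((k : ℝ) - r - ε) := Real.rpow_pos_of_pos hT0 _
    have hw0 : 0 < ((2 : ℝ) ^ t) ^ ((k : ℝ) - r - ε / 2) := Real.rpow_pos_of_pos hT0 _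
    have h := cell_bound hC f V Bs Wt hW hWV C1 hC1 hfC (2 ^ t) (CS * ((2 : ℝ) ^ t) ^ (ε / 4))
      (fun F h1 h2 => by
        have h3 := hCS0 (2 ^ t) F Nat.one_le_two_pow h1 h2
        rw [hTn] at h3
        refine h3.trans (mul_le_mul_of_nonneg_right ?_ (Real.rpow_nonneg hT0.le _))
        rw [hCSe]
        exact le_abs_self _)
      (2 ^ (r + 1) * ((2 : ℝ) ^ t) ^ ((k : ℝ) - r - ε)) (c3 * ((2 : ℝ) ^ t) ^ ((k : ℝ) - r - ε / 2))
      (2 ^ j * ((2 : ℝ) ^ t) ^ (1 - (k : ℝ) + ε / 2)) (E t) (by positivity) (by positivity)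
      (by positivity) (by
        have h3 : ((2 : ℝ) ^ t) ^ ((k : ℝ) - r - ε / 2) ≤ ((2 : ℝ) ^ t) ^ (1 - (k : ℝ) + ε / 2) :=
          Real.rpow_le_rpow_of_exponent_le hT (by linarith)
        have h4 : c3 ≤ 2 ^ j := by linarith
        exact mul_le_mul h4 h3 hw0.le (by positivity)) (by
        rw [hTn]
        have hKpos : 0 < 2 ^ j * ((2 : ℝ) ^ t) ^ (1 - (k : ℝ) + ε / 2) := by positivity
        rw [mul_div_assoc', div_le_div_iff₀ hKpos (by norm_num)]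
        have h3 : (2 : ℝ) ^ t * ((2 : ℝ) ^ t) ^ ((k : ℝ) - r - ε / 2) ≤
            ((2 : ℝ) ^ t) ^ (1 - (k : ℝ) + ε / 2) * ((2 : ℝ) ^ t) ^ (1 - (k : ℝ) + ε / 2) := by
          rw [← Real.rpow_add hT0]
          nth_rewrite 1 [← Real.rpow_one ((2 : ℝ) ^ t)]
          rw [← Real.rpow_add hT0]
          exact Real.rpow_le_rpow_of_exponent_le hT (by linarith)
        have h5 : (4 : ℝ) ≤ 2 ^ j * 2 ^ j := by nlinarith
        have h6 : 2 * C1 * (2 : ℝ) ^ t * (c3 * ((2 : ℝ) ^ t) ^ ((k : ℝ) - r - ε / 2)) =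
            (2 : ℝ) ^ t * ((2 : ℝ) ^ t) ^ ((k : ℝ) - r - ε / 2) := by
          rw [hc3]
          field_simp
        rw [h6]
        set Y := ((2 : ℝ) ^ t) ^ (1 - (k : ℝ) + ε / 2)
        calc (2 : ℝ) ^ t * ((2 : ℝ) ^ t) ^ ((k : ℝ) - r - ε / 2) * 4 ≤ (Y * Y) * (2 ^ j * 2 ^ j) :=
              mul_le_mul h3 h5 (by norm_num) (by positivity)
          _ = 2 ^ j * Y * (2 ^ j * Y) := by ring)
      (fun a haB b hbB ha hb hab habV z hz hdiff => by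
        rw [hEe]
        obtain ⟨c, hc0, hcg⟩ := hgV (a - b) habV (sub_ne_zero.2 hab)
        have hz1 : z ∈ Set.Icc (0 : ℝ) 1 := ⟨hz.1, hz.2.le⟩
        have hbd : ∀ j, |DD j (Pf g c) z| ≤ 2 * C1 * (2 : ℝ) ^ t := by
          intro j
          rw [hcg, DD_sub]
          have ha' := hfC a ((2 : ℝ) ^ t) hT0.le (fun i => by
            have h := ha i
            have h' : ((|a i| : ℤ) : ℝ) ≤ ((2 ^ t : ℕ) : ℝ) := by exact_mod_cast h
            rwa [hTn, Int.cast_abs] at h') j z hz1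
          have hb' := hfC b ((2 : ℝ) ^ t) hT0.le (fun i => by
            have h := hb i
            have h' : ((|b i| : ℤ) : ℝ) ≤ ((2 ^ t : ℕ) : ℝ) := by exact_mod_cast h
            rwa [hTn, Int.cast_abs] at h') j z hz1
          calc |DD j (Pf f a) z - DD j (Pf f b) z| ≤ |DD j (Pf f a) z| + |DD j (Pf f b) z| :=
                abs_sub _ _
            _ ≤ 2 * C1 * (2 : ℝ) ^ t := by linarith
        refine ⟨hz, c, hc0, ?_, ?_, fun j _ => hbd j⟩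
        · rw [hcg, DD_sub]
          refine hdiff.trans ?_
          have h3 : ((2 : ℝ) ^ t) ^ ((k : ℝ) - r - ε) ≤ ((2 : ℝ) ^ t) ^ ((k : ℝ) - r - ε / 2) :=
            Real.rpow_le_rpow_of_exponent_le hT (by linarith)
          have h4 := mul_le_mul_of_nonneg_left h3 hκ0.le
          linarith
        · rw [Real.rpow_one]
          exact hbd 1)
    refine h.trans (ENNReal.ofReal_le_ofReal (le_of_eq ?_))
    rw [hDI, ← two_pow_rpow]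
    have h7 : ((2 : ℝ) ^ t) ^ ((k : ℝ) - r - ε) = ((2 : ℝ) ^ t) ^ ((k : ℝ) - r - ε / 2) *
        (((2 : ℝ) ^ t) ^ (-(ε / 4)) * ((2 : ℝ) ^ t) ^ (-(ε / 4))) := by
      rw [← Real.rpow_add hT0, ← Real.rpow_add hT0]
      congr 1
      ring
    have h8 : ((2 : ℝ) ^ t) ^ (-(ε / 4)) * ((2 : ℝ) ^ t) ^ (ε / 4) = 1 := by
      rw [← Real.rpow_add hT0, neg_add_cancel, Real.rpow_zero]
    rw [h7]
    set W := ((2 : ℝ) ^ t) ^ ((k : ℝ) - r - ε / 2)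
    set U := ((2 : ℝ) ^ t) ^ (-(ε / 4))
    set U' := ((2 : ℝ) ^ t) ^ (ε / 4)
    have hW' : W ≠ 0 := hw0.ne'
    calc 16 * (2 ^ (r + 1) * (W * (U * U))) / (c3 * W) * (CS * U') =
          16 * 2 ^ (r + 1) / c3 * CS * U * (U * U') * (W / W) := by
          field_simp
      _ = 16 * 2 ^ (r + 1) / c3 * CS * U := by rw [h8, div_self hW']; ring
  -- the union
  obtain ⟨B, hBe⟩ : ∃ B : ℕ → Set ℝ, ∀ t, B t = if max tG tE ≤ t then
      (G t ∪ E t) ∪ ⋃ j ∈ Finset.Icc 1 (A + k * t), II t j else ∅ := ⟨_, fun t => rfl⟩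
  have hsum : (∑' t, volume (B t)) ≠ ∞ := by
    have hb : ∀ t, volume (B t) ≤ ENNReal.ofReal (DG * qG ^ t + DE * qE ^ t +
        ((A : ℝ) + k * t) * (DI * ((2 : ℝ) ^ (-(ε / 4))) ^ t)) := by
      intro t
      rw [hBe]
      split_ifs with ht
      · have h1 := hG t ((le_max_left _ _).trans ht)
        have h2 := hE t ((le_max_right _ _).trans ht)
        rw [← hGe] at h1
        rw [← hEe] at h2
        have hq := q_pos (ε / 4)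
        have h3 : volume (⋃ j ∈ Finset.Icc 1 (A + k * t), II t j) ≤
            ENNReal.ofReal (((A : ℝ) + k * t) * (DI * ((2 : ℝ) ^ (-(ε / 4))) ^ t)) := by
          refine (measure_biUnion_finset_le _ _).trans ((Finset.sum_le_sum fun j hj =>
            hII t j (Finset.mem_Icc.1 hj).1).trans (le_of_eq ?_))
          have h4 : ENNReal.ofReal (((A : ℝ) + k * t) * (DI * ((2 : ℝ) ^ (-(ε / 4))) ^ t)) =
              ENNReal.ofReal ((A : ℝ) + k * t) *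
                ENNReal.ofReal (DI * ((2 : ℝ) ^ (-(ε / 4))) ^ t) :=
            ENNReal.ofReal_mul (by positivity)
          rw [h4, Finset.sum_const, Nat.card_Icc, nsmul_eq_mul, Nat.add_sub_cancel,
            ← ENNReal.ofReal_natCast]
          push_cast
          rfl
        refine (measure_union_le _ _).trans ?_
        rw [ENNReal.ofReal_add (by positivity) (by positivity), ENNReal.ofReal_add (by positivity)
          (by positivity)]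
        exact add_le_add ((measure_union_le _ _).trans (add_le_add h1 h2)) h3
      · rw [measure_empty]
        exact zero_le
    refine ne_top_of_le_ne_top ?_ (ENNReal.tsum_le_tsum hb)
    have hs : Summable fun t : ℕ => DG * qG ^ t + DE * qE ^ t +
        ((A : ℝ) + k * t) * (DI * ((2 : ℝ) ^ (-(ε / 4))) ^ t) := by
      have s1 : Summable fun t : ℕ => DG * qG ^ t :=
        (summable_geometric_of_lt_one hqG0.le hqG1).mul_left _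
      have s2 : Summable fun t : ℕ => DE * qE ^ t :=
        (summable_geometric_of_lt_one hqE0.le hqE1).mul_left _
      have s3 : Summable fun t : ℕ => ((2 : ℝ) ^ (-(ε / 4))) ^ t :=
        summable_geometric_of_lt_one (q_pos _).le (q_lt (by positivity))
      have s4 : Summable fun t : ℕ => (t : ℝ) * ((2 : ℝ) ^ (-(ε / 4))) ^ t := by
        have h := summable_pow_mul_geometric_of_norm_lt_one (R := ℝ) 1
          (r := (2 : ℝ) ^ (-(ε / 4))) (by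
            rw [Real.norm_of_nonneg (q_pos _).le]
            exact q_lt (by positivity))
        simpa using h
      have s5 := ((s3.mul_left ((A : ℝ) * DI)).add (s4.mul_left ((k : ℝ) * DI)))
      refine (s1.add s2).add (s5.congr fun t => ?_)
      ring
    exact hs.tsum_ofReal_ne_top
  filter_upwards [ae_eventually_notMem hsum] with z hz hz01
  obtain ⟨t1, ht1⟩ := eventually_atTop.1 hz
  refine (finite_box (n := n' + 2) (2 ^ (max t1 (max tG tE)))).subset fun a ha => ?_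
  obtain ⟨haB, ha0, ha1⟩ := ha
  refine abs_le_of_sz a ?_
  by_contra hcon
  rw [not_le] at hcon
  obtain ⟨t, ht, hat, hta⟩ := exists_scale hcon
  have hN1 : 1 ≤ sz a := sz_pos a ha0
  have hT : (1 : ℝ) ≤ (2 : ℝ) ^ t := one_le_pow₀ (by norm_num)
  have hT0 : (0 : ℝ) < (2 : ℝ) ^ t := by positivity
  have hWa := hW a haB
  have hWa0 : 0 < (Wt a)⁻¹ := by positivity
  have hWa1 : (Wt a)⁻¹ ≤ 1 := inv_le_one_of_one_le₀ hWa
  have hz1 : z ∈ Set.Icc (0 : ℝ) 1 := ⟨hz01.1, hz01.2.le⟩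
  have hsmall : |DD 0 (Pf f a) z| ≤
      2 ^ (r + 1) * ((2 : ℝ) ^ t) ^ ((k : ℝ) - r - ε) * (Wt a)⁻¹ := by
    refine ha1.trans (mul_le_mul_of_nonneg_right ?_ hWa0.le)
    exact rpow_scale (by linarith) (by linarith) hN1 hta
  have hsmall2 : |DD 0 (Pf f a) z| ≤ 2 ^ (r + 1) * ((2 : ℝ) ^ t) ^ ((k : ℝ) - r - ε) := by
    refine hsmall.trans ?_
    have : 0 ≤ 2 ^ (r + 1) * ((2 : ℝ) ^ t) ^ ((k : ℝ) - r - ε) := by positivity
    nlinarith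
  have hbd : ∀ j, |DD j (Pf f a) z| ≤ C1 * (2 : ℝ) ^ t := fun j =>
    hfC a ((2 : ℝ) ^ t) hT0.le (fun i => by
      have h := abs_le_of_sz a hat i
      have h' : ((|a i| : ℤ) : ℝ) ≤ ((2 ^ t : ℕ) : ℝ) := by exact_mod_cast h
      rw [Int.cast_abs] at h'
      refine h'.trans (le_of_eq ?_)
      push_cast
      rfl) j z hz1
  have hnot := ht1 t ((le_max_left _ _).trans ht)
  rw [hBe, if_pos ((le_max_right _ _).trans ht)] at hnot
  rw [Set.mem_union, Set.mem_union, not_or, not_or] at hnot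
  obtain ⟨⟨hnG, hnE⟩, hnI⟩ := hnot
  have hbig : ((2 : ℝ) ^ t) ^ (1 - (k : ℝ) + ε / 2) < |DD 1 (Pf f a) z| := by
    by_contra h
    rw [not_lt] at h
    apply hnG
    rw [hGe]
    exact ⟨hz01, a, ha0, hsmall2, by rw [one_mul]; exact h, fun j _ => hbd j⟩
  have hy0 : 0 < ((2 : ℝ) ^ t) ^ (1 - (k : ℝ) + ε / 2) := Real.rpow_pos_of_pos hT0 _
  obtain ⟨j, hj, hj1, hj2⟩ := exists_dyadic
    (v := |DD 1 (Pf f a) z| / ((2 : ℝ) ^ t) ^ (1 - (k : ℝ) + ε / 2)) (J := A + k * t)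
    ((one_lt_div hy0).2 hbig) (by
      rw [div_le_iff₀ hy0]
      refine (hbd 1).trans ?_
      have h1 : (2 : ℝ) ^ (A + k * t) = 2 ^ A * ((2 : ℝ) ^ t) ^ (k : ℝ) := by
        rw [Real.rpow_natCast, pow_add, ← pow_mul, mul_comm t k]
      have h2 : (2 : ℝ) ^ t ≤ ((2 : ℝ) ^ t) ^ (k : ℝ) * ((2 : ℝ) ^ t) ^ (1 - (k : ℝ) + ε / 2) := by
        rw [← Real.rpow_add hT0]
        nth_rewrite 1 [← Real.rpow_one ((2 : ℝ) ^ t)]
        exact Real.rpow_le_rpow_of_exponent_le hT (by linarith)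
      rw [h1, mul_assoc]
      exact mul_le_mul hA h2 hT0.le (by positivity))
  apply hnI
  rw [Set.mem_iUnion₂]
  refine ⟨j, hj, ?_⟩
  rw [hIIe]
  refine ⟨hz01, hnE, a, haB, abs_le_of_sz a hat, hsmall, ?_, ?_⟩
  · rw [lt_div_iff₀ hy0] at hj1
    refine lt_of_eq_of_lt ?_ hj1
    ring
  · rwa [div_le_iff₀ hy0] at hj2

end Pool.Agent.Q38.TR
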