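import Pool.Agent.Q38.TR.Metric

set_option autoImplicit false

namespace Q38.TR

open SimpleGraph

variable {V : Type*} {G : SimpleGraph V}

/-- combinatorics of two-sided neighbourhoods -/
theorem pair_sum (r : ℕ) (hr : 2 ≤ r) (N : ℕ → Prop) (hL : ∃ i, N i ∧ i ≤ r - 2)
    (hR : ∃ j, N j ∧ r ≤ j)
    (hall : ∀ i, N i → i ≤ r - 2 ∨ (r ≤ i ∧ i ≤ 2 * r - 2))
    (hsum : ∀ i j, N i → N j → i ≤ r - 2 → r ≤ j → 2 * r - 3 ≤ i + j ∧ i + j ≤ 2 * r - 2) :
    ∃ n1 m n3, n1 ≤ r - 2 ∧ r ≤ n3 ∧ n1 < m ∧ m < n3 ∧ n3 ≤ 2 * r - 2 ∧ N n1 ∧ N n3 ∧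
      ∀ i, N i → i = n1 ∨ i = m ∨ i = n3 := by
  obtain ⟨i0, hi0, hi0'⟩ := hL
  obtain ⟨j0, hj0, hj0'⟩ := hR
  have hj0'' := hall j0 hj0
  have h00 := hsum i0 j0 hi0 hj0 hi0' hj0'
  by_cases h1 : ∃ i, N i ∧ i ≤ r - 2 ∧ i ≠ i0
  · obtain ⟨i1, hi1, hi1', hne⟩ := h1
    have h10 := hsum i1 j0 hi1 hj0 hi1' hj0'
    have hRe : ∀ j, N j → r ≤ j → j = j0 := by
      intro j hj hj'
      have h2 := hsum i0 j hi0 hj hi0' hj'
      have h3 := hsum i1 j hi1 hj hi1' hj'
      omega
    have hLe : ∀ i, N i → i ≤ r - 2 → i = i0 ∨ i = i1 := by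
      intro i hi hi'
      have h2 := hsum i j0 hi hj0 hi' hj0'
      omega
    rcases Nat.lt_or_gt_of_ne hne with h4 | h4
    · refine ⟨i1, i0, j0, hi1', hj0', h4, by omega, by omega, hi1, hj0, ?_⟩
      intro i hi
      rcases hall i hi with h5 | h5
      · rcases hLe i hi h5 with h6 | h6
        · exact Or.inr (Or.inl h6)
        · exact Or.inl h6
      · exact Or.inr (Or.inr (hRe i hi h5.1))
    · refine ⟨i0, i1, j0, hi0', hj0', h4, by omega, by omega, hi0, hj0, ?_⟩
      intro i hi
      rcases hall i hi with h5 | h5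
      · rcases hLe i hi h5 with h6 | h6
        · exact Or.inl h6
        · exact Or.inr (Or.inl h6)
      · exact Or.inr (Or.inr (hRe i hi h5.1))
  · have hLe : ∀ i, N i → i ≤ r - 2 → i = i0 := by
      intro i hi hi'
      by_contra h2
      exact h1 ⟨i, hi, hi', h2⟩
    by_cases h2 : ∃ j, N j ∧ r ≤ j ∧ j ≠ j0
    · obtain ⟨j1, hj1, hj1', hne⟩ := h2
      have hj1'' := hall j1 hj1
      have h01 := hsum i0 j1 hi0 hj1 hi0' hj1'
      have hRe : ∀ j, N j → r ≤ j → j = j0 ∨ j = j1 := by
        intro j hj hj'
        have h2 := hsum i0 j hi0 hj hi0' hj'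
        omega
      rcases Nat.lt_or_gt_of_ne hne with h4 | h4
      · refine ⟨i0, j1, j0, hi0', hj0', by omega, h4, by omega, hi0, hj0, ?_⟩
        intro i hi
        rcases hall i hi with h5 | h5
        · exact Or.inl (hLe i hi h5)
        · rcases hRe i hi h5.1 with h6 | h6
          · exact Or.inr (Or.inr h6)
          · exact Or.inr (Or.inl h6)
      · refine ⟨i0, j0, j1, hi0', hj1', by omega, h4, by omega, hi0, hj1, ?_⟩
        intro i hi
        rcases hall i hi with h5 | h5
        · exact Or.inl (hLe i hi h5)
        · rcases hRe i hi h5.1 with h6 | h6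
          · exact Or.inr (Or.inl h6)
          · exact Or.inr (Or.inr h6)
    · refine ⟨i0, r - 1, j0, hi0', hj0', by omega, by omega, by omega, hi0, hj0, ?_⟩
      intro i hi
      rcases hall i hi with h5 | h5
      · exact Or.inl (hLe i hi h5)
      · right; right
        by_contra h6
        exact h2 ⟨i, hi, h5.1, h6⟩

/-- the data of the induced cycle -/
def Cyc (G : SimpleGraph V) (r : ℕ) (c : ℕ → V) : Prop :=
  (∀ i j, i < j → j < 2 * r → c i ≠ c j ∧
    (G.Adj (c i) (c j) ↔ (j = i + 1 ∨ (i = 0 ∧ j = 2 * r - 1)))) ∧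
  G.dist (c (r - 2)) (c (2 * r - 2)) = r ∧ r - 1 ≤ G.dist (c 0) (c r) ∧
  G.dist (c (r - 1)) (c (2 * r - 1)) = r ∧
  (∀ i j, i ≤ j → j ≤ 2 * r - 2 → G.dist (c i) (c j) ≤ j - i)

theorem step1 (hG : G.Connected) (r : ℕ) (hr : 2 ≤ r) (x v : V) (hxv : G.dist x v = r)
    (hx : ∀ u, u ≠ v → G.dist x u ≤ r - 1) (hecc : ∀ u, ∃ w, r ≤ G.dist u w) :
    (∃ n S, TS G n S ∧ 2 * r ≤ n) ∨ ∃ c, Cyc G r c := by
  classical
  rcases esspath hG r hr x v hxv hx hecc with ⟨p, hp⟩ | ⟨p, hp, hp1, hp2, hp3, hp0⟩
  · left
    exact ⟨_, _, hp.ts (by omega), le_rfl⟩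
  obtain ⟨z, hz⟩ := hecc (p (r - 1))
  have hPd := hp.dist_le hG
  have hPadj := hp.2
  have hzv : z ≠ v := by
    rintro rfl
    rw [← hp0, dist_comm'] at hz
    have := hPd 0 (r - 1) (by omega) (by omega)
    omega
  have hxz := hx z hzv
  have hx1 : G.dist x (p (r - 1)) = 1 := by
    have := hp3 (r - 1) le_rfl
    omega
  have hz1 : G.dist (p (r - 1)) z = r := by
    have := tri hG (p (r - 1)) x z
    rw [dist_comm' (p (r - 1)) x] at this
    omega
  have hxz' : G.dist x z = r - 1 := by
    have := tri hG (p (r - 1)) x z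
    rw [dist_comm' (p (r - 1)) x] at this
    omega
  obtain ⟨i0, hi0, hmin⟩ : ∃ i0 < 2 * r - 1, ∀ i < 2 * r - 1, G.dist z (p i0) ≤ G.dist z (p i) := by
    obtain ⟨i0, h1, h2⟩ := Finset.exists_min_image (Finset.range (2 * r - 1))
      (fun i => G.dist z (p i)) ⟨0, Finset.mem_range.mpr (by omega)⟩
    exact ⟨i0, Finset.mem_range.mp h1, fun i hi => h2 i (Finset.mem_range.mpr hi)⟩
  set e := G.dist z (p i0) with he
  have habs : ∀ i < 2 * r - 1, G.dist (p (r - 1)) (p i) ≤ r - 1 - i + (i - (r - 1)) := by
    intro i hi
    rcases Nat.le_total i (r - 1) with h | h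
    · rw [dist_comm']
      have := hPd i (r - 1) h (by omega)
      omega
    · have := hPd (r - 1) i h hi
      omega
  have he1 : 1 ≤ e := by
    have h1 := habs i0 hi0
    have h2 := tri hG (p (r - 1)) (p i0) z
    rw [dist_comm' (p i0) z] at h2
    omega
  rcases Nat.lt_or_ge e r with her | her
  · -- geodesic from z to the path
    obtain ⟨g, hg0, hge, hg⟩ := exists_geo hG z (p i0)
    rw [← he] at hge hg
    have hgz : ∀ a, a ≤ e → G.dist z (g a) = a := by
      intro a ha
      have := hg 0 a (by omega) ha
      rw [hg0] at this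
      omega
    have hfar : ∀ a, a ≤ e → ∀ i < 2 * r - 1, e - a ≤ G.dist (g a) (p i) := by
      intro a ha i hi
      have h1 := hmin i hi
      have h2 := tri hG z (g a) (p i)
      have h3 := hgz a ha
      omega
    have hgIP : IP G g e := by
      apply ip_of_dist
      intro i j hij hj
      have := hg i j (by omega) (by omega)
      omega
    have hT := hgIP.ts (by omega)
    set T := {v | ∃ i < e, g i = v} with hTdef
    have hu : g (e - 1) ∈ T := ⟨e - 1, by omega, rfl⟩
    have hout : ∀ i < 2 * r - 1, p i ∉ T := by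
      rintro i hi ⟨a, ha, h⟩
      have h1 := hfar a (by omega) i hi
      rw [h, SimpleGraph.dist_self] at h1
      omega
    have honly : ∀ i < 2 * r - 1, ∀ y ∈ T, G.Adj (p i) y → y = g (e - 1) := by
      rintro i hi y ⟨a, ha, rfl⟩ h
      have h1 := hfar a (by omega) i hi
      rw [adj_iff, dist_comm'] at h
      congr 1
      omega
    -- the neighbourhood
    set N : ℕ → Prop := fun i => i < 2 * r - 1 ∧ G.Adj (p i) (g (e - 1)) with hN
    have hNz : ∀ i, N i → r ≤ (r - 1 - i + (i - (r - 1))) + e := by
      rintro i ⟨hi, h⟩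
      have h1 := habs i hi
      have h2 := tri hG (p (r - 1)) (p i) z
      have h3 := tri hG (p i) (g (e - 1)) z
      rw [adj_iff] at h
      have h4 := hgz (e - 1) (by omega)
      rw [dist_comm' (g (e - 1)) z] at h3
      omega
    have hNi0 : N i0 := by
      refine ⟨hi0, ?_⟩
      rw [adj_iff, dist_comm']
      have := hg (e - 1) e (by omega) le_rfl
      rw [hge] at this
      omega
    by_cases hA : ∀ i, N i → i ≤ r - 2
    · -- left side only: keep from the last neighbour on
      left
      have hex : ∃ M, N M ∧ ∀ i, N i → i ≤ M := by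
        have hfin : (Finset.filter N (Finset.range (2 * r - 1))).Nonempty :=
          ⟨i0, Finset.mem_filter.mpr ⟨Finset.mem_range.mpr hi0, hNi0⟩⟩
        refine ⟨_, (Finset.mem_filter.mp (Finset.max'_mem _ hfin)).2, ?_⟩
        intro i hi
        exact Finset.le_max' _ _ (Finset.mem_filter.mpr ⟨Finset.mem_range.mpr hi.1, hi⟩)
      obtain ⟨M, hM, hMax⟩ := hex
      have h1 := hNz M hM
      have h2 := hA M hM
      have hseg := hT.seg hu p M M (2 * r - 2) le_rfl (by omega)
        (fun i hi hi' j hj hj' => hp.1 i (by omega) j (by omega))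
        (fun i hi hi' j hj hj' => hp.2 i (by omega) j (by omega))
        (fun i hi hi' => hout i (by omega)) hM.2
        (fun i hi hi' y hy h => by
          have h3 := honly i (by omega) y hy h
          subst h3
          have h4 : N i := ⟨by omega, h⟩
          have h5 := hMax i h4
          exact ⟨by omega, rfl⟩)
      exact ⟨_, _, hseg, by omega⟩
    by_cases hB : ∀ i, N i → r ≤ i
    · left
      have hex : ∃ M, N M ∧ ∀ i, N i → M ≤ i := by
        have hfin : (Finset.filter N (Finset.range (2 * r - 1))).Nonempty :=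
          ⟨i0, Finset.mem_filter.mpr ⟨Finset.mem_range.mpr hi0, hNi0⟩⟩
        refine ⟨_, (Finset.mem_filter.mp (Finset.min'_mem _ hfin)).2, ?_⟩
        intro i hi
        exact Finset.min'_le _ _ (Finset.mem_filter.mpr ⟨Finset.mem_range.mpr hi.1, hi⟩)
      obtain ⟨M, hM, hMin⟩ := hex
      have h1 := hNz M hM
      have h2 := hB M hM
      have h3 := hM.1
      have hseg := hT.seg hu p 0 M M (by omega) le_rfl
        (fun i hi hi' j hj hj' => hp.1 i (by omega) j (by omega))
        (fun i hi hi' j hj hj' => hp.2 i (by omega) j (by omega))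
        (fun i hi hi' => hout i (by omega)) hM.2
        (fun i hi hi' y hy h => by
          have h3 := honly i (by omega) y hy h
          subst h3
          have h4 : N i := ⟨by omega, h⟩
          have h5 := hMin i h4
          exact ⟨by omega, rfl⟩)
      exact ⟨_, _, hseg, by omega⟩
    -- two-sided
    have hall : ∀ i, N i → i ≤ r - 2 ∨ (r ≤ i ∧ i ≤ 2 * r - 2) := by
      intro i hi
      have h1 := hNz i hi
      have h2 := hi.1
      omega
    have hL : ∃ i, N i ∧ i ≤ r - 2 := by
      by_contra h
      apply hB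
      intro i hi
      rcases hall i hi with h1 | h1
      · exact absurd ⟨i, hi, h1⟩ h
      · exact h1.1
    have hR : ∃ i, N i ∧ r ≤ i := by
      by_contra h
      apply hA
      intro i hi
      rcases hall i hi with h1 | h1
      · exact h1
      · exact absurd ⟨i, hi, h1.1⟩ h
    have hsum : ∀ i j, N i → N j → i ≤ r - 2 → r ≤ j → 2 * r - 3 ≤ i + j ∧ i + j ≤ 2 * r - 2 := by
      rintro i j ⟨hi, hi'⟩ ⟨hj, hj'⟩ h1 h2
      rw [adj_iff] at hi' hj'
      have h3 := tri hG (p i) (g (e - 1)) (p j)
      rw [dist_comm' (g (e - 1)) (p j)] at h3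
      have h4 := tri hG (p (r - 2)) (p i) (p (2 * r - 2))
      have h5 := tri hG (p i) (p j) (p (2 * r - 2))
      have h6 := hPd i (r - 2) h1 (by omega)
      rw [dist_comm'] at h6
      have h7 := hPd j (2 * r - 2) (by omega) (by omega)
      have h8 := tri hG (p 0) (p i) (p r)
      have h9 := tri hG (p i) (p j) (p r)
      have h10 := hPd 0 i (by omega) (by omega)
      have h11 := hPd r j h2 (by omega)
      rw [dist_comm'] at h11
      omega
    obtain ⟨n1, m, n3, hn1, hn3, h1m, hm3, hn3', hN1, hN3, hNall⟩ :=
      pair_sum r hr N hL hR hall hsum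
    by_cases he2 : 2 ≤ e
    · left
      have htwo := hT.two_seg hu p (2 * r - 1) hp n1 m n3 h1m hm3 (by omega) hout hN1.2 hN3.2
        (fun i hi y hy h => by
          have h3 := honly i hi y hy h
          subst h3
          exact ⟨hNall i ⟨hi, h⟩, rfl⟩)
      exact ⟨_, _, htwo, by omega⟩
    · -- the cycle
      right
      have he1' : e = 1 := by omega
      have hgz0 : g (e - 1) = z := by rw [he1']; exact hg0
      have hNiff : ∀ i, i < 2 * r - 1 → (G.Adj (p i) z ↔ i = 0 ∨ i = 2 * r - 2) := by
        intro i hi
        constructor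
        · intro h
          have h1 : N i := ⟨hi, by rw [hgz0]; exact h⟩
          have := hNz i h1
          omega
        · have h1 := hNz n1 hN1
          have h3 := hNz n3 hN3
          rintro (rfl | rfl)
          · have := hN1.2
            rw [hgz0] at this
            rw [show n1 = 0 by omega] at this
            exact this
          · have := hN3.2
            rw [hgz0] at this
            rw [show n3 = 2 * r - 2 by omega] at this
            exact this
      refine ⟨fun i => if i < 2 * r - 1 then p i else z, ?_, ?_, ?_, ?_, ?_⟩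
      · intro i j hij hj
        by_cases hj' : j < 2 * r - 1
        · simp only [if_pos (show i < 2 * r - 1 by omega), if_pos hj']
          constructor
          · intro h
            have := hp.1 i (by omega) j hj' h
            omega
          · rw [hp.2 i (by omega) j hj']
            omega
        · simp only [if_pos (show i < 2 * r - 1 by omega), if_neg hj']
          constructor
          · intro h
            have h1 := hfar 0 (by omega) i (by omega)
            rw [hg0, h, SimpleGraph.dist_self] at h1
            omega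
          · rw [hNiff i (by omega)]
            omega
      · simp only [if_pos (show r - 2 < 2 * r - 1 by omega),
          if_pos (show 2 * r - 2 < 2 * r - 1 by omega)]
        exact hp1
      · simp only [if_pos (show 0 < 2 * r - 1 by omega), if_pos (show r < 2 * r - 1 by omega)]
        exact hp2
      · simp only [if_pos (show r - 1 < 2 * r - 1 by omega),
          if_neg (show ¬ 2 * r - 1 < 2 * r - 1 by omega)]
        exact hz1
      · intro i j hij hj
        simp only [if_pos (show i < 2 * r - 1 by omega), if_pos (show j < 2 * r - 1 by omega)]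
        exact hPd i j hij (by omega)
  · -- far: a path with 2 r vertices
    left
    obtain ⟨g, hg0, hgr, hg⟩ := exists_geo hG x z
    rw [hxz'] at hgr hg
    have hIP : IP G (fun i => if i ≤ r - 1 then p i else g (i - r)) (2 * r) := by
      apply ip_of_lt
      intro i j hij hj
      by_cases hj' : j ≤ r - 1
      · simp only [if_pos (show i ≤ r - 1 by omega), if_pos hj']
        constructor
        · intro h
          have := hp.1 i (by omega) j (by omega) h
          omega
        · rw [hp.2 i (by omega) j (by omega)]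
          omega
      · by_cases hi : i ≤ r - 1
        · simp only [if_pos hi, if_neg hj']
          have h1 := hmin i (by omega)
          have h2 := hg (j - r) (r - 1) (by omega) le_rfl
          rw [hgr] at h2
          have h3 := tri hG z (g (j - r)) (p i)
          rw [dist_comm' z (g (j - r))] at h3
          rw [adj_iff, dist_comm' (p i) (g (j - r))]
          by_cases hjr : j = r
          · subst hjr
            rw [Nat.sub_self, hg0, hp3 i hi]
            constructor
            · intro h
              have h5 := hp3 i hi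
              rw [h, SimpleGraph.dist_self] at h5
              omega
            · omega
          · constructor
            · intro h
              have h6 : G.dist (g (j - r)) (p i) = 0 := by rw [h, SimpleGraph.dist_self]
              omega
            · omega
        · simp only [if_neg hi, if_neg hj']
          have h1 := hg (i - r) (j - r) (by omega) (by omega)
          constructor
          · intro h
            rw [h, SimpleGraph.dist_self] at h1
            omega
          · rw [adj_iff, h1]
            omega
    exact ⟨_, _, hIP.ts (by omega), le_rfl⟩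

end Q38.TR
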