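import Pool.Agent.Q38.TR.Cyc

set_option autoImplicit false

namespace Q38.TR

open SimpleGraph

/-- rotation of a cycle of length `n` after deleting the vertex `δ` -/
def rot (n δ i : ℕ) : ℕ := if δ + 1 + i < n then δ + 1 + i else δ + 1 + i - n

theorem sort3 (S : Finset ℕ) (h : S.card = 3) : ∃ a b c, a < b ∧ b < c ∧ ∀ i, i ∈ S ↔
    (i = a ∨ i = b ∨ i = c) := by
  obtain ⟨x, y, z, hxy, hxz, hyz, rfl⟩ := Finset.card_eq_three.mp h
  simp only [Finset.mem_insert, Finset.mem_singleton]
  rcases Nat.lt_or_gt_of_ne hxy with h1 | h1 <;> rcases Nat.lt_or_gt_of_ne hxz with h2 | h2 <;>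
    rcases Nat.lt_or_gt_of_ne hyz with h3 | h3
  · exact ⟨x, y, z, h1, h3, fun i => by tauto⟩
  · exact ⟨x, z, y, h2, h3, fun i => by tauto⟩
  · omega
  · exact ⟨z, x, y, h2, h1, fun i => by tauto⟩
  · exact ⟨y, x, z, h1, h2, fun i => by tauto⟩
  · omega
  · exact ⟨y, z, x, h3, h2, fun i => by tauto⟩
  · exact ⟨z, y, x, h3, h1, fun i => by tauto⟩

theorem cyc_choice (n : ℕ) (hn : 4 ≤ n) (S : Finset ℕ) (hS : ∀ i ∈ S, i < n) (hne : S.Nonempty)
    (hcard : S.card ≤ 4) : ∃ δ < n,
      (∃ i1 < n - 1, rot n δ i1 ∈ S ∧ ∀ i < n - 1, rot n δ i ∈ S → i = i1) ∨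
      (∃ i1 m i3, i1 < m ∧ m < i3 ∧ i3 < n - 1 ∧ rot n δ i1 ∈ S ∧ rot n δ i3 ∈ S ∧
        ∀ i < n - 1, rot n δ i ∈ S → i = i1 ∨ i = m ∨ i = i3) := by
  have hpos := hne.card_pos
  obtain h1 | h2 | h3 | h4 : S.card = 1 ∨ S.card = 2 ∨ S.card = 3 ∨ S.card = 4 := by omega
  · obtain ⟨a, rfl⟩ := Finset.card_eq_one.mp h1
    have ha := hS a (Finset.mem_singleton_self a)
    simp only [Finset.mem_singleton, rot]
    by_cases ha0 : a = 0
    · refine ⟨1, by omega, Or.inl ⟨n - 2, by omega, ?_, ?_⟩⟩
      · split_ifs <;> omega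
      · intro i hi h
        split_ifs at h <;> omega
    · refine ⟨0, by omega, Or.inl ⟨a - 1, by omega, ?_, ?_⟩⟩
      · split_ifs <;> omega
      · intro i hi h
        split_ifs at h <;> omega
  · obtain ⟨a, b, hab, rfl⟩ := Finset.card_eq_two.mp h2
    have ha := hS a (by simp)
    have hb := hS b (by simp)
    simp only [Finset.mem_insert, Finset.mem_singleton, rot]
    rcases Nat.lt_or_gt_of_ne hab with h | h
    · refine ⟨b, hb, Or.inl ⟨a + n - b - 1, by omega, ?_, ?_⟩⟩
      · split_ifs <;> omega
      · intro i hi h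
        split_ifs at h <;> omega
    · refine ⟨a, ha, Or.inl ⟨b + n - a - 1, by omega, ?_, ?_⟩⟩
      · split_ifs <;> omega
      · intro i hi h
        split_ifs at h <;> omega
  · obtain ⟨a, b, c, hab, hbc, hmem⟩ := sort3 S h3
    have hc := hS c ((hmem c).mpr (by omega))
    simp only [hmem, rot]
    by_cases h1 : a + 2 ≤ b
    · refine ⟨c, hc, Or.inr ⟨a + n - c - 1, a + n - c, b + n - c - 1, by omega, by omega,
        by omega, ?_, ?_, ?_⟩⟩
      · split_ifs <;> omega
      · split_ifs <;> omega
      · intro i hi h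
        split_ifs at h <;> omega
    · by_cases h2 : a = 0 ∧ c = n - 1
      · refine ⟨0, by omega, Or.inr ⟨0, 1, n - 2, by omega, by omega, by omega, ?_, ?_, ?_⟩⟩
        · split_ifs <;> omega
        · split_ifs <;> omega
        · intro i hi h
          split_ifs at h <;> omega
      · refine ⟨b, by omega, Or.inr ⟨c - b - 1, c - b, a + n - b - 1, by omega, by omega,
          by omega, ?_, ?_, ?_⟩⟩
        · split_ifs <;> omega
        · split_ifs <;> omega
        · intro i hi h
          split_ifs at h <;> omega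
  · have hmax := Finset.max'_mem S hne
    set d := S.max' hne with hd
    have h3 : (S.erase d).card = 3 := by rw [Finset.card_erase_of_mem hmax, h4]
    obtain ⟨a, b, c, hab, hbc, hmem⟩ := sort3 _ h3
    have hcd : c < d := by
      have h5 := (hmem c).mpr (by omega)
      have h6 := Finset.mem_erase.mp h5
      have h7 := Finset.le_max' S c h6.2
      have h8 := h6.1
      omega
    have hdn := hS d hmax
    have hmem' : ∀ i, i ∈ S ↔ (i = a ∨ i = b ∨ i = c ∨ i = d) := by
      intro i
      by_cases hid : i = d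
      · subst hid
        exact ⟨fun _ => by omega, fun _ => hmax⟩
      · have := hmem i
        rw [Finset.mem_erase] at this
        constructor
        · intro h
          have := this.mp ⟨hid, h⟩
          omega
        · intro h
          exact (this.mpr (by omega)).2
    simp only [hmem', rot]
    refine ⟨d, hdn, Or.inr ⟨a + n - d - 1, b + n - d - 1, c + n - d - 1, by omega, by omega,
      by omega, ?_, ?_, ?_⟩⟩
    · split_ifs <;> omega
    · split_ifs <;> omega
    · intro i hi h
      split_ifs at h <;> omega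

variable {V : Type*} {G : SimpleGraph V}

theorem rot_ip (r : ℕ) (hr : 2 ≤ r) (c : ℕ → V) (hc : ∀ i j, i < j → j < 2 * r → c i ≠ c j ∧
    (G.Adj (c i) (c j) ↔ (j = i + 1 ∨ (i = 0 ∧ j = 2 * r - 1)))) (δ : ℕ) (hδ : δ < 2 * r) :
    IP G (fun i => c (rot (2 * r) δ i)) (2 * r - 1) := by
  apply ip_of_lt
  intro i j hij hj
  simp only [rot]
  by_cases h2 : δ + 1 + j < 2 * r
  · rw [if_pos h2, if_pos (show δ + 1 + i < 2 * r by omega)]
    have := hc (δ + 1 + i) (δ + 1 + j) (by omega) h2
    refine ⟨this.1, ?_⟩
    rw [this.2]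
    omega
  · by_cases h1 : δ + 1 + i < 2 * r
    · rw [if_pos h1, if_neg h2]
      have := hc (δ + 1 + j - 2 * r) (δ + 1 + i) (by omega) h1
      refine ⟨fun h => this.1 h.symm, ?_⟩
      rw [G.adj_comm, this.2]
      omega
    · rw [if_neg h1, if_neg h2]
      have := hc (δ + 1 + i - 2 * r) (δ + 1 + j - 2 * r) (by omega) (by omega)
      refine ⟨this.1, ?_⟩
      rw [this.2]
      omega

theorem nbr_card (hG : G.Connected) (r : ℕ) (hr : 2 ≤ r) (c : ℕ → V) (hc : Cyc G r c)
    (S : Finset ℕ) (hS : ∀ i ∈ S, i < 2 * r) (h2 : ∀ i ∈ S, ∀ j ∈ S, G.dist (c i) (c j) ≤ 2) :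
    S.card ≤ 4 := by
  classical
  obtain ⟨hadj, hc1, hc2, hc3, hd⟩ := hc
  by_cases hr2 : r = 2
  · subst hr2
    have : S ⊆ Finset.range 4 := fun i hi => Finset.mem_range.mpr (by have := hS i hi; omega)
    simpa using Finset.card_le_card this
  have hz0 : G.dist (c 0) (c (2 * r - 1)) = 1 := by
    rw [← adj_iff, (hadj 0 (2 * r - 1) (by omega) (by omega)).2]
    omega
  have hz1 : G.dist (c (2 * r - 2)) (c (2 * r - 1)) = 1 := by
    rw [← adj_iff, (hadj (2 * r - 2) (2 * r - 1) (by omega) (by omega)).2]
    omega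
  by_cases hL : ∃ i, i ∈ S ∧ i ≤ r - 2
  · by_cases hR : ∃ j, j ∈ S ∧ r ≤ j ∧ j ≤ 2 * r - 2
    · -- both sides
      obtain ⟨n1, m, n3, -, -, -, -, -, -, -, hall⟩ := pair_sum r hr
        (fun i => i ∈ S ∧ i ≠ r - 1 ∧ i ≠ 2 * r - 1)
        (by obtain ⟨i, hi, hi'⟩ := hL; exact ⟨i, ⟨hi, by omega, by omega⟩, hi'⟩)
        (by obtain ⟨j, hj, hj', hj''⟩ := hR; exact ⟨j, ⟨hj, by omega, by omega⟩, hj'⟩)
        (by rintro i ⟨hi, h3, h4⟩; have := hS i hi; omega)
        (by
          rintro i j ⟨hi, hi1, hi2⟩ ⟨hj, hj1, hj2⟩ h1 h2'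
          have hj3 := hS j hj
          have h3 := h2 i hi j hj
          have h4 := tri hG (c (r - 2)) (c i) (c (2 * r - 2))
          have h5 := tri hG (c i) (c j) (c (2 * r - 2))
          have h6 := hd i (r - 2) h1 (by omega)
          rw [dist_comm'] at h6
          have h7 := hd j (2 * r - 2) (by omega) (by omega)
          have h8 := tri hG (c 0) (c i) (c r)
          have h9 := tri hG (c i) (c j) (c r)
          have h10 := hd 0 i (by omega) (by omega)
          have h11 := hd r j h2' (by omega)
          rw [dist_comm'] at h11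
          omega)
      have hsub : S ⊆ {n1, m, n3, if r - 1 ∈ S then r - 1 else 2 * r - 1} := by
        intro i hi
        simp only [Finset.mem_insert, Finset.mem_singleton]
        by_cases h3 : i = r - 1
        · right; right; right
          rw [if_pos (h3 ▸ hi)]
          exact h3
        · by_cases h4 : i = 2 * r - 1
          · right; right; right
            rw [if_neg]
            · exact h4
            · intro h5
              have := h2 _ h5 i hi
              rw [h4, hc3] at this
              omega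
          · have := hall i ⟨hi, h3, h4⟩
            omega
      exact (Finset.card_le_card hsub).trans Finset.card_le_four
    · -- left side only
      have hD : ∀ i, i ≤ r - 1 → G.dist (c (r - 1)) (c i) = r - 1 - i := by
        intro i hi
        have h3 := hd i (r - 1) hi (by omega)
        rw [dist_comm'] at h3
        have h4 := hd 0 i (by omega) (by omega)
        rw [dist_comm'] at h4
        have h5 := tri hG (c (r - 1)) (c i) (c (2 * r - 1))
        have h6 := tri hG (c i) (c 0) (c (2 * r - 1))
        omega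
      have hall : ∀ i ∈ S, i ≤ r - 1 ∨ i = 2 * r - 1 := by
        intro i hi
        have := hS i hi
        by_contra h3
        exact hR ⟨i, hi, by omega, by omega⟩
      by_cases hz : 2 * r - 1 ∈ S
      · have hsub : S ⊆ {0, 1, 2 * r - 1} := by
          intro i hi
          simp only [Finset.mem_insert, Finset.mem_singleton]
          rcases hall i hi with h3 | h3
          · have h4 := tri hG (c (r - 1)) (c i) (c (2 * r - 1))
            have h5 := h2 i hi _ hz
            have h6 := hD i h3
            omega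
          · omega
        exact (Finset.card_le_card hsub).trans (Finset.card_le_three.trans (by omega))
      · obtain ⟨i0, hi0, hi0'⟩ := hL
        have hne : S.Nonempty := ⟨i0, hi0⟩
        have hmin := Finset.min'_mem S hne
        set d := S.min' hne with hd'
        have hsub : S ⊆ {d, d + 1, d + 2} := by
          intro i hi
          simp only [Finset.mem_insert, Finset.mem_singleton]
          have h3 : d ≤ i := Finset.min'_le S i hi
          have h4 : i ≤ r - 1 := by
            rcases hall i hi with h4 | h4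
            · exact h4
            · exact absurd (h4 ▸ hi) hz
          have h5 := tri hG (c (r - 1)) (c i) (c d)
          have h6 := h2 i hi d hmin
          have h7 := hD i h4
          have h8 := hD d (by omega)
          omega
        exact (Finset.card_le_card hsub).trans (Finset.card_le_three.trans (by omega))
  · -- right side only
    have hD : ∀ i, r - 1 ≤ i → i ≤ 2 * r - 1 → G.dist (c (r - 1)) (c i) = i - (r - 1) := by
      intro i hi hi'
      by_cases hiz : i = 2 * r - 1
      · rw [hiz, hc3]; omega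
      · have h3 := hd (r - 1) i hi (by omega)
        have h4 := hd i (2 * r - 2) (by omega) (by omega)
        have h5 := tri hG (c (r - 1)) (c i) (c (2 * r - 1))
        have h6 := tri hG (c i) (c (2 * r - 2)) (c (2 * r - 1))
        omega
    have hall : ∀ i ∈ S, r - 1 ≤ i ∧ i ≤ 2 * r - 1 := by
      intro i hi
      have := hS i hi
      by_contra h3
      exact hL ⟨i, hi, by omega⟩
    rcases S.eq_empty_or_nonempty with he | hne
    · rw [he]; simp
    have hmin := Finset.min'_mem S hne
    set d := S.min' hne with hd'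
    have hsub : S ⊆ {d, d + 1, d + 2} := by
      intro i hi
      simp only [Finset.mem_insert, Finset.mem_singleton]
      have h3 : d ≤ i := Finset.min'_le S i hi
      have h4 := hall i hi
      have h9 := hall d hmin
      have h5 := tri hG (c (r - 1)) (c d) (c i)
      have h6 := h2 d hmin i hi
      have h7 := hD i h4.1 h4.2
      have h8 := hD d h9.1 h9.2
      omega
    exact (Finset.card_le_card hsub).trans (Finset.card_le_three.trans (by omega))

theorem step2 (hG : G.Connected) (r : ℕ) (hr : 2 ≤ r) (c : ℕ → V) (hc : Cyc G r c) (l a : V)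
    (hl : ∀ y, G.Adj l y → y = a) : ∃ n S, TS G n S ∧ 2 * r ≤ n := by
  classical
  have hadj := hc.1
  have hlc : ∀ i < 2 * r, l ≠ c i := by
    intro i hi h
    by_cases h0 : i = 0
    · subst h0
      have e1 := hl (c 1) (by rw [h, (hadj 0 1 (by omega) (by omega)).2]; omega)
      have e2 := hl (c (2 * r - 1)) (by
        rw [h, (hadj 0 (2 * r - 1) (by omega) (by omega)).2]; omega)
      exact (hadj 1 (2 * r - 1) (by omega) (by omega)).1 (e1.trans e2.symm)
    · by_cases h1 : i = 2 * r - 1
      · have e1 := hl (c 0) (by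
          rw [h, G.adj_comm, h1, (hadj 0 (2 * r - 1) (by omega) (by omega)).2]; omega)
        have e2 := hl (c (2 * r - 2)) (by
          rw [h, G.adj_comm, h1, (hadj (2 * r - 2) (2 * r - 1) (by omega) (by omega)).2]; omega)
        exact (hadj 0 (2 * r - 2) (by omega) (by omega)).1 (e1.trans e2.symm)
      · have e1 := hl (c (i - 1)) (by
          rw [h, G.adj_comm, (hadj (i - 1) i (by omega) (by omega)).2]; omega)
        have e2 := hl (c (i + 1)) (by rw [h, (hadj i (i + 1) (by omega) (by omega)).2]; omega)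
        exact (hadj (i - 1) (i + 1) (by omega) (by omega)).1 (e1.trans e2.symm)
  obtain ⟨i0, hi0, hmin⟩ : ∃ i0 < 2 * r, ∀ i < 2 * r, G.dist l (c i0) ≤ G.dist l (c i) := by
    obtain ⟨i0, h1, h2⟩ := Finset.exists_min_image (Finset.range (2 * r))
      (fun i => G.dist l (c i)) ⟨0, Finset.mem_range.mpr (by omega)⟩
    exact ⟨i0, Finset.mem_range.mp h1, fun i hi => h2 i (Finset.mem_range.mpr hi)⟩
  set e := G.dist l (c i0) with he
  have he1 : 1 ≤ e := by
    have := hG.pos_dist_of_ne (hlc i0 hi0)
    omega
  obtain ⟨g, hg0, hge, hg⟩ := exists_geo hG l (c i0)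
  rw [← he] at hge hg
  have hgz : ∀ b, b ≤ e → G.dist l (g b) = b := by
    intro b hb
    have := hg 0 b (by omega) hb
    rw [hg0] at this
    omega
  have hfar : ∀ b, b ≤ e → ∀ i < 2 * r, e - b ≤ G.dist (g b) (c i) := by
    intro b hb i hi
    have h1 := hmin i hi
    have h2 := tri hG l (g b) (c i)
    have h3 := hgz b hb
    omega
  have hgIP : IP G g e := by
    apply ip_of_dist
    intro i j hij hj
    have := hg i j (by omega) (by omega)
    omega
  have hT := hgIP.ts (by omega)
  set T := {v | ∃ i < e, g i = v} with hTdef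
  have hu : g (e - 1) ∈ T := ⟨e - 1, by omega, rfl⟩
  have hout : ∀ i < 2 * r, c i ∉ T := by
    rintro i hi ⟨b, hb, h⟩
    have h1 := hfar b (by omega) i hi
    rw [h, SimpleGraph.dist_self] at h1
    omega
  have honly : ∀ i < 2 * r, ∀ y ∈ T, G.Adj (c i) y → y = g (e - 1) := by
    rintro i hi y ⟨b, hb, rfl⟩ h
    have h1 := hfar b (by omega) i hi
    rw [adj_iff, dist_comm'] at h
    congr 1
    omega
  set S : Finset ℕ := (Finset.range (2 * r)).filter (fun i => G.Adj (c i) (g (e - 1))) with hS
  have hSmem : ∀ i, i ∈ S ↔ i < 2 * r ∧ G.Adj (c i) (g (e - 1)) := by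
    intro i
    rw [hS, Finset.mem_filter, Finset.mem_range]
  have hcard : S.card ≤ 4 := by
    apply nbr_card hG r hr c hc S (fun i hi => ((hSmem i).mp hi).1)
    intro i hi j hj
    have h1 := ((hSmem i).mp hi).2
    have h2 := ((hSmem j).mp hj).2
    rw [adj_iff] at h1 h2
    have h3 := tri hG (c i) (g (e - 1)) (c j)
    rw [dist_comm' (g (e - 1)) (c j)] at h3
    omega
  have hne : S.Nonempty := by
    refine ⟨i0, (hSmem i0).mpr ⟨hi0, ?_⟩⟩
    rw [adj_iff, dist_comm']
    have := hg (e - 1) e (by omega) le_rfl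
    rw [hge] at this
    omega
  have hrot : ∀ δ < 2 * r, ∀ i < 2 * r - 1, rot (2 * r) δ i < 2 * r := by
    intro δ hδ i hi
    unfold rot
    split_ifs <;> omega
  obtain ⟨δ, hδ, h | h⟩ := cyc_choice (2 * r) (by omega) S (fun i hi => ((hSmem i).mp hi).1) hne
    hcard
  · obtain ⟨i1, hi1, hi1S, hi1u⟩ := h
    have hp := rot_ip r hr c hadj δ hδ
    have hseg := hT.seg hu (fun i => c (rot (2 * r) δ i)) 0 i1 (2 * r - 2) (by omega) (by omega)
      (fun i hi hi' j hj hj' => hp.1 i (by omega) j (by omega))
      (fun i hi hi' j hj hj' => hp.2 i (by omega) j (by omega))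
      (fun i hi hi' => hout _ (hrot δ hδ i (by omega))) ((hSmem _).mp hi1S).2
      (fun i hi hi' y hy h => by
        have h3 := honly _ (hrot δ hδ i (by omega)) y hy h
        subst h3
        exact ⟨hi1u i (by omega) ((hSmem _).mpr ⟨hrot δ hδ i (by omega), h⟩), rfl⟩)
    exact ⟨_, _, hseg, by omega⟩
  · obtain ⟨i1, m, i3, h1m, hm3, hi3, hi1S, hi3S, hu3⟩ := h
    have hp := rot_ip r hr c hadj δ hδ
    have htwo := hT.two_seg hu (fun i => c (rot (2 * r) δ i)) (2 * r - 1) hp i1 m i3 h1m hm3 hi3
      (fun i hi => hout _ (hrot δ hδ i hi)) ((hSmem _).mp hi1S).2 ((hSmem _).mp hi3S).2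
      (fun i hi y hy h => by
        have h3 := honly _ (hrot δ hδ i (by omega)) y hy h
        subst h3
        exact ⟨hu3 i (by omega) ((hSmem _).mpr ⟨hrot δ hδ i (by omega), h⟩), rfl⟩)
    have he2 : 2 ≤ e := by
      by_contra he2
      have he1' : e = 1 := by omega
      have hgl : g (e - 1) = l := by rw [he1']; exact hg0
      have h5 := hl _ (by have := ((hSmem _).mp hi1S).2; rw [hgl] at this; exact this.symm)
      have h6 := hl _ (by have := ((hSmem _).mp hi3S).2; rw [hgl] at this; exact this.symm)
      have := hp.1 i1 (by omega) i3 (by omega) (h5.trans h6.symm)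
      omega
    exact ⟨_, _, htwo, by omega⟩

end Q38.TR
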