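import Pool.Agent.Q38.TR.Basic

/-! Geodesics; the induced path on `2 r - 1` vertices; the induced cycle on `2 r` vertices. -/

set_option autoImplicit false

namespace Q38.TR

open SimpleGraph

variable {V : Type*} {G : SimpleGraph V}

theorem tri (hG : G.Connected) (a b c : V) : G.dist a c ≤ G.dist a b + G.dist b c :=
  hG.dist_triangle

theorem steps_le (hG : G.Connected) (g : ℕ → V) (n : ℕ)
    (h : ∀ i, i + 1 ≤ n → G.dist (g i) (g (i + 1)) ≤ 1) (i j : ℕ) (hij : i ≤ j) (hj : j ≤ n) :
    G.dist (g i) (g j) ≤ j - i := by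
  induction j, hij using Nat.le_induction with
  | base => simp
  | succ j hij ih =>
    have h1 := ih (by omega)
    have h2 := h j hj
    have h3 := tri hG (g i) (g j) (g (j + 1))
    omega

theorem exists_geo (hG : G.Connected) (u v : V) :
    ∃ g : ℕ → V, g 0 = u ∧ g (G.dist u v) = v ∧
      ∀ i j, i ≤ j → j ≤ G.dist u v → G.dist (g i) (g j) = j - i := by
  obtain ⟨p, hp⟩ := hG.exists_walk_length_eq_dist u v
  have h1 : ∀ i, i + 1 ≤ G.dist u v → G.dist (p.getVert i) (p.getVert (i + 1)) ≤ 1 := by
    intro i hi
    have h2 : G.Adj (p.getVert i) (p.getVert (i + 1)) := p.adj_getVert_succ (by omega)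
    exact (dist_eq_one_iff_adj.mpr h2).le
  refine ⟨p.getVert, p.getVert_zero, by rw [← hp]; exact p.getVert_length, ?_⟩
  intro i j hij hj
  have h2 := steps_le hG p.getVert _ h1 i j hij hj
  have h3 := steps_le hG p.getVert _ h1 0 i (by omega) (by omega)
  have h4 := steps_le hG p.getVert _ h1 j (G.dist u v) hj le_rfl
  rw [p.getVert_zero] at h3
  have h5 : p.getVert (G.dist u v) = v := by rw [← hp]; exact p.getVert_length
  rw [h5] at h4
  have h6 := tri hG u (p.getVert i) v
  have h7 := tri hG (p.getVert i) (p.getVert j) v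
  omega

theorem ip_of_lt (p : ℕ → V) (n : ℕ)
    (h : ∀ i j, i < j → j < n → p i ≠ p j ∧ (G.Adj (p i) (p j) ↔ j = i + 1)) : IP G p n := by
  constructor
  · intro i hi j hj hij
    rcases lt_trichotomy i j with h1 | h1 | h1
    · exact absurd hij (h i j h1 hj).1
    · exact h1
    · exact absurd hij.symm (h j i h1 hi).1
  · intro i hi j hj
    rcases lt_trichotomy i j with h1 | h1 | h1
    · rw [(h i j h1 hj).2]; omega
    · subst h1
      simp
    · rw [G.adj_comm, (h j i h1 hi).2]; omega

theorem ip_of_dist (p : ℕ → V) (n : ℕ)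
    (h : ∀ i j, i < j → j < n → 1 ≤ G.dist (p i) (p j) ∧ (G.dist (p i) (p j) = 1 ↔ j = i + 1)) :
    IP G p n := by
  apply ip_of_lt
  intro i j hij hj
  obtain ⟨h1, h2⟩ := h i j hij hj
  refine ⟨?_, ?_⟩
  · intro h3
    rw [h3, dist_self] at h1
    omega
  · rw [← dist_eq_one_iff_adj, h2]

theorem IP.dist_le (hG : G.Connected) {p : ℕ → V} {n : ℕ} (h : IP G p n) (i j : ℕ) (hij : i ≤ j)
    (hj : j < n) : G.dist (p i) (p j) ≤ j - i := by
  apply steps_le hG p (n - 1) _ i j hij (by omega)
  intro k hk
  exact (dist_eq_one_iff_adj.mpr ((h.2 k (by omega) (k + 1) (by omega)).mpr (Or.inr rfl))).le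

theorem adj_iff (a b : V) : G.Adj a b ↔ G.dist a b = 1 := dist_eq_one_iff_adj.symm

theorem dist_comm' (a b : V) : G.dist a b = G.dist b a := SimpleGraph.dist_comm

/-- the induced path on `2 r - 1` (or `2 r`) vertices -/
theorem esspath (hG : G.Connected) (r : ℕ) (hr : 2 ≤ r) (x v : V) (hxv : G.dist x v = r)
    (hx : ∀ u, u ≠ v → G.dist x u ≤ r - 1) (hecc : ∀ u, ∃ w, r ≤ G.dist u w) :
    (∃ p, IP G p (2 * r)) ∨ ∃ p, IP G p (2 * r - 1) ∧ G.dist (p (r - 2)) (p (2 * r - 2)) = r ∧
      r - 1 ≤ G.dist (p 0) (p r) ∧ (∀ i, i ≤ r - 1 → G.dist x (p i) = r - i) ∧ p 0 = v := by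
  obtain ⟨g, hg0, hgr, hg⟩ := exists_geo hG x v
  rw [hxv] at hgr hg
  obtain ⟨w, hw⟩ := hecc (g 2)
  have hwv : w ≠ v := by
    rintro rfl
    have := hg 2 r hr le_rfl
    rw [hgr] at this
    omega
  have ht := hx w hwv
  obtain ⟨h, hh0, hht, hh⟩ := exists_geo hG x w
  set t := G.dist x w with htdef
  have h02 : G.dist x (g 2) = 2 := by
    have := hg 0 2 (by omega) hr
    rw [hg0] at this
    omega
  have ht2 : r - 2 ≤ t := by
    have := tri hG (g 2) x w
    rw [dist_comm' (g 2) x] at this
    omega
  -- cross distances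
  have cross : ∀ a b, 1 ≤ a → a ≤ r → 1 ≤ b → b ≤ t →
      2 ≤ G.dist (g a) (h b) ∨ (a = 1 ∧ b = 1 ∧ t = r - 1 ∧ G.dist (g a) (h b) = 1) := by
    intro a b ha1 ha hb1 hb
    have e1 := tri hG (g 2) (g a) w
    have e2 := tri hG (g a) (h b) w
    have e3 : G.dist (h b) w = t - b := by
      have := hh b t hb le_rfl
      rw [hht] at this
      exact this
    have e4 := tri hG x (h b) v
    have e5 := tri hG (h b) (g a) v
    have e6 : G.dist x (h b) = b := by
      have := hh 0 b (by omega) hb
      rw [hh0] at this
      omega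
    have e7 : G.dist (g a) v = r - a := by
      have := hg a r ha le_rfl
      rw [hgr] at this
      exact this
    rw [dist_comm' (h b) (g a)] at e5
    have e8 : (a = 1 ∧ G.dist (g 2) (g a) ≤ 1) ∨ (2 ≤ a ∧ G.dist (g 2) (g a) = a - 2) := by
      rcases Nat.lt_or_ge a 2 with h2 | h2
      · left
        have h3 : a = 1 := by omega
        subst h3
        have := hg 1 2 (by omega) hr
        rw [dist_comm' (g 2) (g 1)]
        omega
      · right
        exact ⟨h2, hg 2 a h2 ha⟩
    rcases e8 with ⟨e8, e9⟩ | ⟨e8, e9⟩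
    · omega
    · omega
  have hxg : ∀ a, a ≤ r → G.dist x (g a) = a := by
    intro a ha
    have := hg 0 a (by omega) ha
    rw [hg0] at this
    omega
  have hxh : ∀ a, a ≤ t → G.dist x (h a) = a := by
    intro a ha
    have := hh 0 a (by omega) ha
    rw [hh0] at this
    omega
  have hD2w : t = r - 2 → G.dist (g 2) w = r := by
    intro h1
    have := tri hG (g 2) x w
    rw [dist_comm' (g 2) x] at this
    omega
  by_cases hc : t = r - 1 ∧ G.dist (g 1) (h 1) = 1
  · -- case (c)
    obtain ⟨hc1, hc2⟩ := hc
    right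
    refine ⟨fun i => if i ≤ r - 1 then g (r - i) else h (i - (r - 1)), ?_, ?_, ?_, ?_, ?_⟩
    · apply ip_of_dist
      intro i j hij hj
      by_cases hi : i ≤ r - 1
      · by_cases hj' : j ≤ r - 1
        · simp only [if_pos hi, if_pos hj']
          rw [dist_comm', hg (r - j) (r - i) (by omega) (by omega)]
          omega
        · simp only [if_pos hi, if_neg hj']
          rcases cross (r - i) (j - (r - 1)) (by omega) (by omega) (by omega) (by omega) with
            h1 | ⟨h1, h2, h3, h4⟩
          · refine ⟨by omega, ⟨fun h5 => by omega, fun h5 => ?_⟩⟩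
            exfalso
            have e1 : r - i = 1 := by omega
            have e2 : j - (r - 1) = 1 := by omega
            rw [e1, e2] at h1
            omega
          · exact ⟨by omega, ⟨fun h5 => by omega, fun h5 => h4⟩⟩
      · have hj' : ¬ j ≤ r - 1 := by omega
        simp only [if_neg hi, if_neg hj']
        rw [hh (i - (r - 1)) (j - (r - 1)) (by omega) (by omega)]
        omega
    · have e1 : r - 2 ≤ r - 1 := by omega
      have e2 : ¬ 2 * r - 2 ≤ r - 1 := by omega
      simp only [if_pos e1, if_neg e2]
      rw [show r - (r - 2) = 2 by omega, show 2 * r - 2 - (r - 1) = t by omega, hht]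
      have h1 := tri hG (g 2) (g 1) w
      have h2 := tri hG (g 1) (h 1) w
      have h3 : G.dist (h 1) w = t - 1 := by
        have := hh 1 t (by omega) le_rfl
        rw [hht] at this
        exact this
      have h4 := hg 1 2 (by omega) hr
      rw [dist_comm' (g 2) (g 1)] at h1
      omega
    · have e2 : ¬ r ≤ r - 1 := by omega
      simp only [if_pos (Nat.zero_le (r - 1)), if_neg e2]
      rw [show r - 0 = r by omega, show r - (r - 1) = 1 by omega, hgr]
      have h1 := tri hG x (h 1) v
      have h2 := hxh 1 (by omega)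
      rw [dist_comm' v (h 1)]
      omega
    · intro i hi
      simp only [if_pos hi]
      exact hxg _ (by omega)
    · simp only [if_pos (Nat.zero_le (r - 1))]
      exact hgr
  · -- cases (a), (b): path through x
    have hcr : ∀ a b, 1 ≤ a → a ≤ r → 1 ≤ b → b ≤ t → 2 ≤ G.dist (g a) (h b) := by
      intro a b h1 h2 h3 h4
      rcases cross a b h1 h2 h3 h4 with h5 | ⟨h5, h6, h7, h8⟩
      · exact h5
      · subst h5
        subst h6
        exact absurd ⟨h7, h8⟩ hc
    have key : ∀ i j, i < j → j < r + 1 + t →
        1 ≤ G.dist ((fun i => if i ≤ r then g (r - i) else h (i - r)) i)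
          ((fun i => if i ≤ r then g (r - i) else h (i - r)) j) ∧
        (G.dist ((fun i => if i ≤ r then g (r - i) else h (i - r)) i)
          ((fun i => if i ≤ r then g (r - i) else h (i - r)) j) = 1 ↔ j = i + 1) := by
      intro i j hij hj
      by_cases hi : i ≤ r
      · by_cases hj' : j ≤ r
        · simp only [if_pos hi, if_pos hj']
          rw [dist_comm', hg (r - j) (r - i) (by omega) (by omega)]
          omega
        · simp only [if_pos hi, if_neg hj']
          by_cases hir : i = r
          · subst hir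
            rw [Nat.sub_self, hg0, hxh _ (by omega)]
            omega
          · have := hcr (r - i) (j - r) (by omega) (by omega) (by omega) (by omega)
            omega
      · have hj' : ¬ j ≤ r := by omega
        simp only [if_neg hi, if_neg hj']
        rw [hh (i - r) (j - r) (by omega) (by omega)]
        omega
    rcases Nat.lt_or_ge t (r - 1) with ht3 | ht3
    · right
      have ht4 : t = r - 2 := by omega
      refine ⟨fun i => if i ≤ r then g (r - i) else h (i - r), ?_, ?_, ?_, ?_, ?_⟩
      · exact ip_of_dist _ _ fun i j hij hj => key i j hij (by omega)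
      · have e1 : r - 2 ≤ r := by omega
        simp only [if_pos e1]
        rw [show r - (r - 2) = 2 by omega]
        by_cases e2 : 2 * r - 2 ≤ r
        · have hr2 : r = 2 := by omega
          have ht0 : t = 0 := by omega
          simp only [if_pos e2]
          rw [show r - (2 * r - 2) = 0 by omega, hg0]
          have hwx : x = w := by rw [← hht, ht0, hh0]
          rw [hwx]
          exact hD2w ht4
        · simp only [if_neg e2]
          rw [show 2 * r - 2 - r = t by omega, hht]
          exact hD2w ht4
      · simp only [if_pos (Nat.zero_le r), if_pos le_rfl]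
        rw [show r - 0 = r by omega, Nat.sub_self, hgr, hg0, dist_comm' v x, hxv]
        omega
      · intro i hi
        simp only [if_pos (show i ≤ r by omega)]
        exact hxg _ (by omega)
      · simp only [if_pos (Nat.zero_le r)]
        exact hgr
    · left
      refine ⟨fun i => if i ≤ r then g (r - i) else h (i - r), ?_⟩
      exact ip_of_dist _ _ fun i j hij hj => key i j hij (by omega)

end Q38.TR
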